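import Mathlib
import Pool.Agent.Helper617.RM.Defs
import Pool.Agent.Helper617.RM.Orders
import Pool.Agent.Helper617.CR.Defs

/-!
Models of the systems `RCA*₀` and `RCA₀` of second-order arithmetic, arithmetical formulas with
set variables, and `Π¹₁`-conservativity.

Structures for second-order arithmetic (`L2Structure`), number terms (`Term`), `Δ⁰₀` formulas with
parameters (`Delta0`) and their truth are those of `Pool.Agent.Helper617.RM.Defs`; the pairing
function `N.pair x y = (x + y)² + x`, `FunIn` (a function whose graph is a set of the structure)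
and `IsFin` (bounded) are those of `Pool.Agent.Helper617.RM.Orders`; the cohesiveness principle
`COH` is that of `Pool.Agent.Helper617.CR.Defs`.
-/

namespace Pool.Agent.TH748.COH

open Pool.Agent.Helper617.RM

universe u

/-- `N` is a model of `RCA*₀`: the axioms of the nonnegative part of a discretely ordered
commutative ring, the existence of the total function `2 ^ x`, induction for `Σ⁰₀` formulas with
parameters, and `Δ⁰₁` comprehension with parameters. -/
class IsModelRCA0star (N : L2Structure.{u}) : Prop where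
  ax_add_assoc : ∀ a b c, N.add (N.add a b) c = N.add a (N.add b c)
  ax_add_comm : ∀ a b, N.add a b = N.add b a
  ax_add_zero : ∀ a, N.add a N.zero = a
  ax_mul_assoc : ∀ a b c, N.mul (N.mul a b) c = N.mul a (N.mul b c)
  ax_mul_comm : ∀ a b, N.mul a b = N.mul b a
  ax_mul_zero : ∀ a, N.mul a N.zero = N.zero
  ax_mul_one : ∀ a, N.mul a N.one = a
  ax_mul_add : ∀ a b c, N.mul a (N.add b c) = N.add (N.mul a b) (N.mul a c)
  ax_lt_irrefl : ∀ a, ¬ N.lt a a
  ax_lt_trans : ∀ a b c, N.lt a b → N.lt b c → N.lt a c
  ax_lt_total : ∀ a b, N.lt a b ∨ a = b ∨ N.lt b a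
  ax_add_lt_add : ∀ a b c, N.lt a b → N.lt (N.add a c) (N.add b c)
  ax_mul_lt_mul : ∀ a b c, N.lt N.zero c → N.lt a b → N.lt (N.mul a c) (N.mul b c)
  ax_sub : ∀ a b, N.lt a b → ∃ c, N.add a c = b
  ax_zero_lt_one : N.lt N.zero N.one
  ax_discrete : ∀ a, N.lt N.zero a → a = N.one ∨ N.lt N.one a
  ax_nonneg : ∀ a, a = N.zero ∨ N.lt N.zero a
  ax_exp : ∃ e : N.M → N.M, FunIn N e ∧ e N.zero = N.one ∧
    ∀ k, e (N.add k N.one) = N.add (e k) (e k)
  sigma0_induction : ∀ (θ : Delta0 N) (v : ℕ → N.M), θ.Holds (cons N.zero v) →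
    (∀ n, θ.Holds (cons n v) → θ.Holds (cons (N.add n N.one) v)) → ∀ n, θ.Holds (cons n v)
  delta1_comprehension : ∀ (θ ψ : Delta0 N) (v : ℕ → N.M),
    (∀ n, (∃ k, θ.Holds (cons k (cons n v))) ↔ ∀ k, ψ.Holds (cons k (cons n v))) →
    {n | ∃ k, θ.Holds (cons k (cons n v))} ∈ N.Sets

/-- Induction for all `Σ⁰₁` formulas `∃ k, θ(k, n)` with number and set parameters. -/
def ISigma01 (N : L2Structure.{u}) : Prop :=
  ∀ (θ : Delta0 N) (v : ℕ → N.M),
    (∃ k, θ.Holds (cons k (cons N.zero v))) →
    (∀ n, (∃ k, θ.Holds (cons k (cons n v))) →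
      ∃ k, θ.Holds (cons k (cons (N.add n N.one) v))) →
    ∀ n, ∃ k, θ.Holds (cons k (cons n v))

/-- The cohesiveness principle for finite sequences of sets: for every number `a` and every
sequence of sets `R_i = {x | (i, x) ∈ R}`, `i < a`, there is an infinite (that is, unbounded) set
`C` such that for each `i < a` one of `C ∩ R_i` and `C \ R_i` is finite (that is, bounded). -/
def FiniteCOH (N : L2Structure.{u}) : Prop :=
  ∀ a, ∀ R ∈ N.Sets, ∃ C ∈ N.Sets, ¬ IsFin N C ∧
    ∀ i, N.lt i a → IsFin N {x | x ∈ C ∧ N.pair i x ∈ R} ∨ IsFin N {x | x ∈ C ∧ N.pair i x ∉ R}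

/-! ### sentences of the language of second-order arithmetic -/

/-- Terms of the language of arithmetic (no parameters). -/
inductive LTerm : Type
  | var (i : ℕ) : LTerm
  | zero : LTerm
  | one : LTerm
  | add (s t : LTerm) : LTerm
  | mul (s t : LTerm) : LTerm

/-- The value of a term in a structure. -/
def LTerm.val (N : L2Structure.{u}) : LTerm → (ℕ → N.M) → N.M
  | .var i, v => v i
  | .zero, _ => N.zero
  | .one, _ => N.one
  | .add s t, v => N.add (s.val N v) (t.val N v)
  | .mul s t, v => N.mul (s.val N v) (t.val N v)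

/-- Arithmetical formulas (all quantifiers are number quantifiers) with free number variables and
free set variables `X_0, X_1, …`, without parameters, in de Bruijn form: `all φ` is `∀ x, φ`,
where `x` is the number variable `0` of `φ` and the number variable `i` of `all φ` is the number
variable `i + 1` of `φ`. -/
inductive Arith : Type
  | eq (s t : LTerm) : Arith
  | lt (s t : LTerm) : Arith
  | mem (t : LTerm) (k : ℕ) : Arith
  | neg (φ : Arith) : Arith
  | and (φ ψ : Arith) : Arith
  | all (φ : Arith) : Arith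

/-- Truth of an arithmetical formula in a structure under an assignment `X` of its set variables
and an assignment `v` of its number variables. -/
def Arith.Holds (N : L2Structure.{u}) : Arith → (ℕ → Set N.M) → (ℕ → N.M) → Prop
  | .eq s t, _, v => s.val N v = t.val N v
  | .lt s t, _, v => N.lt (s.val N v) (t.val N v)
  | .mem t k, X, v => t.val N v ∈ X k
  | .neg φ, X, v => ¬ φ.Holds N X v
  | .and φ ψ, X, v => φ.Holds N X v ∧ ψ.Holds N X v
  | .all φ, X, v => ∀ a, φ.Holds N X (cons a v)

/-- Truth in `N` of the `Π¹₁` sentence `∀ X_0 X_1 … ∀ x_0 x_1 … φ`, the universal closure of the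
arithmetical formula `φ`. -/
def Pi11True (N : L2Structure.{u}) (φ : Arith) : Prop :=
  ∀ X : ℕ → Set N.M, (∀ k, X k ∈ N.Sets) → ∀ v : ℕ → N.M, φ.Holds N X v

/-- `T` and `S` are (the classes of models of) two theories in the language of second-order
arithmetic. Every `Π¹₁` sentence which is provable in `T`, that is, true in all models of `T`, is
provable in `S`. -/
def Pi11Conservative (T S : L2Structure.{0} → Prop) : Prop :=
  ∀ φ : Arith, (∀ N, T N → Pi11True N φ) → ∀ N, S N → Pi11True N φ

end Pool.Agent.TH748.COH
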