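import Mathlib
import Pool.Agent.TH748.COH.Defs
import Pool.Agent.Helper617.RM.Definable

namespace Pool.Agent.TH748.COH

open Pool.Agent.Helper617.RM

universe u

set_option linter.unusedSectionVars false
set_option linter.unusedVariables false

variable {N : L2Structure.{u}} [IsModelRCA0star N]

open IsModelRCA0star

instance iZero : Zero N.M := ⟨N.zero⟩
instance iOne : One N.M := ⟨N.one⟩
instance iAdd : Add N.M := ⟨N.add⟩
instance iMul : Mul N.M := ⟨N.mul⟩

noncomputable instance iCommSemiring : CommSemiring N.M where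
  add_assoc := ax_add_assoc
  zero_add := fun a => (ax_add_comm _ _).trans (ax_add_zero a)
  add_zero := ax_add_zero
  add_comm := ax_add_comm
  left_distrib := ax_mul_add
  right_distrib := fun a b c => by
    show N.mul (N.add a b) c = N.add (N.mul a c) (N.mul b c)
    rw [ax_mul_comm, ax_mul_add, ax_mul_comm c, ax_mul_comm c]
  zero_mul := fun a => (ax_mul_comm _ _).trans (ax_mul_zero a)
  mul_zero := ax_mul_zero
  mul_assoc := ax_mul_assoc
  one_mul := fun a => (ax_mul_comm _ _).trans (ax_mul_one a)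
  mul_one := ax_mul_one
  mul_comm := ax_mul_comm
  nsmul := nsmulRec
  npow := npowRec

noncomputable instance iLinearOrder : LinearOrder N.M where
  le a b := N.lt a b ∨ a = b
  lt a b := N.lt a b
  le_refl a := Or.inr rfl
  le_trans a b c h1 h2 := by
    rcases h1 with h1 | rfl
    · rcases h2 with h2 | rfl
      · exact Or.inl (ax_lt_trans _ _ _ h1 h2)
      · exact Or.inl h1
    · exact h2
  lt_iff_le_not_ge a b := by
    constructor
    · intro h
      refine ⟨Or.inl h, fun h2 => ?_⟩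
      rcases h2 with h2 | rfl
      · exact ax_lt_irrefl _ (ax_lt_trans _ _ _ h h2)
      · exact ax_lt_irrefl _ h
    · rintro ⟨h1 | rfl, h2⟩
      · exact h1
      · exact absurd (Or.inr rfl) h2
  le_antisymm a b h1 h2 := by
    rcases h1 with h1 | h1
    · rcases h2 with h2 | h2
      · exact absurd (ax_lt_trans _ _ _ h1 h2) (ax_lt_irrefl _)
      · exact h2.symm
    · exact h1
  le_total a b := by
    rcases ax_lt_total a b with h | h | h
    · exact Or.inl (Or.inl h)
    · exact Or.inl (Or.inr h)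
    · exact Or.inr (Or.inl h)
  toDecidableLE := Classical.decRel _

theorem nonneg' (a : N.M) : 0 ≤ a := by
  rcases ax_nonneg a with h | h
  · exact Or.inr h.symm
  · exact Or.inl h

theorem add_lt_add_r {a b : N.M} (h : a < b) (c : N.M) : a + c < b + c := ax_add_lt_add _ _ _ h

theorem add_le_add_r {a b : N.M} (h : a ≤ b) (c : N.M) : a + c ≤ b + c := by
  rcases h with h | rfl
  · exact Or.inl (add_lt_add_r h c)
  · exact Or.inr rfl

theorem le_iff_ex {a b : N.M} : a ≤ b ↔ ∃ c, b = a + c := by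
  constructor
  · rintro (h | rfl)
    · obtain ⟨c, hc⟩ := ax_sub a b h
      exact ⟨c, hc.symm⟩
    · exact ⟨0, (add_zero a).symm⟩
  · rintro ⟨c, rfl⟩
    have := add_le_add_r (nonneg' c) a
    rwa [zero_add, add_comm] at this

instance iIsOrderedCancel : IsOrderedCancelAddMonoid N.M where
  add_le_add_left a b h c := add_le_add_r h c
  le_of_add_le_add_left a b c h := by
    by_contra hcon
    have := add_lt_add_r (not_le.1 hcon) a
    rw [add_comm c a, add_comm b a] at this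
    exact absurd h (not_le.2 this)

instance iZeroLEOne : ZeroLEOneClass N.M := ⟨nonneg' 1⟩

instance iNontrivial : Nontrivial N.M := ⟨0, 1, (show (0 : N.M) < 1 from ax_zero_lt_one).ne⟩

instance iIsStrictOrderedRing : IsStrictOrderedRing N.M where
  mul_lt_mul_of_pos_left a ha b c h := by
    show a * b < a * c
    rw [mul_comm a b, mul_comm a c]
    exact ax_mul_lt_mul _ _ _ ha h
  mul_lt_mul_of_pos_right a ha b c h := ax_mul_lt_mul _ _ _ ha h

instance iCanonicallyOrderedAdd : CanonicallyOrderedAdd N.M where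
  exists_add_of_le {a b} h := le_iff_ex.1 h
  le_add_self a b := le_iff_ex.2 ⟨b, add_comm _ _⟩
  le_self_add a b := le_iff_ex.2 ⟨b, rfl⟩

theorem eq_zero_or_succ' (k : N.M) : k = 0 ∨ ∃ k', k = k' + 1 := by
  rcases ax_nonneg k with h | h
  · exact Or.inl h
  · right
    rcases ax_discrete k h with h | h
    · exact ⟨0, by rw [zero_add]; exact h⟩
    · obtain ⟨c, hc⟩ := ax_sub _ _ h
      exact ⟨c, by rw [← hc, add_comm]; rfl⟩

theorem lt_succ {a b : N.M} : a < b + 1 ↔ a ≤ b := by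
  constructor
  · intro h
    by_contra hcon
    obtain ⟨c, rfl⟩ := le_iff_ex.1 (not_le.1 hcon).le
    rcases eq_zero_or_succ' c with rfl | ⟨d, rfl⟩
    · rw [add_zero] at hcon; exact hcon le_rfl
    · rw [← add_assoc] at h
      have h2 : b + 1 ≤ b + d + 1 := add_le_add_r (le_iff_ex.2 ⟨d, rfl⟩) 1
      exact absurd h (not_lt.2 h2)
  · intro h
    refine lt_of_le_of_lt h ?_
    have := add_lt_add_r (show (0 : N.M) < 1 from ax_zero_lt_one) b
    rwa [zero_add, add_comm] at this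

theorem succ_le {a b : N.M} : a + 1 ≤ b ↔ a < b := by
  rw [← lt_succ, add_lt_add_iff_right]

/-! ### definability -/

theorem tm_zero : Tm (fun _ : Ctx N => (0 : N.M)) := ⟨.zero, fun _ => rfl⟩
theorem tm_one : Tm (fun _ : Ctx N => (1 : N.M)) := ⟨.one, fun _ => rfl⟩
theorem tm_add {s t : Ctx N → N.M} (hs : Tm s) (ht : Tm t) : Tm (fun v => s v + t v) := by
  obtain ⟨σ, hσ⟩ := hs
  obtain ⟨τ, hτ⟩ := ht
  exact ⟨.add σ τ, fun v => by simp only [Term.val, hσ, hτ]; rfl⟩
theorem tm_mul {s t : Ctx N → N.M} (hs : Tm s) (ht : Tm t) : Tm (fun v => s v * t v) := by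
  obtain ⟨σ, hσ⟩ := hs
  obtain ⟨τ, hτ⟩ := ht
  exact ⟨.mul σ τ, fun v => by simp only [Term.val, hσ, hτ]; rfl⟩

theorem d0_lt {s t : Ctx N → N.M} (hs : Tm s) (ht : Tm t) : D0 (fun v => s v < t v) := by
  obtain ⟨σ, hσ⟩ := hs
  obtain ⟨τ, hτ⟩ := ht
  exact ⟨.lt σ τ, fun v => by simp only [Delta0.Holds, hσ, hτ]; rfl⟩

theorem d0_le {s t : Ctx N → N.M} (hs : Tm s) (ht : Tm t) : D0 (fun v => s v ≤ t v) :=
  (d0_lt hs (tm_add ht tm_one)).congr fun v => by
    simp only [lt_succ]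

theorem d0_ball {t : Ctx N → N.M} {P : Ctx N → N.M → Prop} (ht : Tm t)
    (hP : D0 (fun w => P (tail w) (w 0))) : D0 (fun v => ∀ x, x < t v → P v x) := by
  obtain ⟨τ, hτ⟩ := ht
  obtain ⟨φ, hφ⟩ := hP
  refine ⟨.ball τ φ, fun v => ?_⟩
  simp only [Delta0.Holds, hτ]
  exact forall_congr' fun a => imp_congr Iff.rfl (hφ (cons a v))

theorem d0_bex {t : Ctx N → N.M} {P : Ctx N → N.M → Prop} (ht : Tm t)
    (hP : D0 (fun w => P (tail w) (w 0))) : D0 (fun v => ∃ x, x < t v ∧ P v x) :=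
  (d0_ball (P := fun v x => ¬ P v x) ht hP.not).not.congr fun v => by push Not; rfl

theorem d0_ballLe {t : Ctx N → N.M} {P : Ctx N → N.M → Prop} (ht : Tm t)
    (hP : D0 (fun w => P (tail w) (w 0))) : D0 (fun v => ∀ x, x ≤ t v → P v x) :=
  (d0_ball (tm_add ht tm_one) hP).congr fun v => by simp only [lt_succ]

theorem d0_bexLe {t : Ctx N → N.M} {P : Ctx N → N.M → Prop} (ht : Tm t)
    (hP : D0 (fun w => P (tail w) (w 0))) : D0 (fun v => ∃ x, x ≤ t v ∧ P v x) :=
  (d0_bex (tm_add ht tm_one) hP).congr fun v => by simp only [lt_succ]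

/-- `Δ⁰₀` induction -/
theorem ind0 {P : N.M → Prop} (hP : D0 (fun v => P (v 0))) (h0 : P 0)
    (hs : ∀ n, P n → P (n + 1)) (n : N.M) : P n := by
  obtain ⟨φ, hφ⟩ := hP
  have key : ∀ n, φ.Holds (cons n (fun _ => (0 : N.M))) ↔ P n := fun n => hφ _
  exact (key n).1 (sigma0_induction φ _ ((key _).2 h0)
    (fun n hn => (key _).2 (hs n ((key _).1 hn))) n)

/-- least number principle -/
theorem lnp0 {P : N.M → Prop} (hP : D0 (fun v => P (v 0))) {a : N.M} (ha : P a) :
    ∃ n, n ≤ a ∧ P n ∧ ∀ m, m < n → ¬ P m := by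
  by_contra hcon
  push Not at hcon
  have key : ∀ n, ∀ m, m < n → m ≤ a → ¬ P m := by
    intro n
    refine ind0 (P := fun n => ∀ m, m < n → m ≤ a → ¬ P m) ?_ ?_ ?_ n
    · exact d0_ball (P := fun _ m => m ≤ a → ¬ P m) (Tm.var 0)
        ((d0_le (Tm.var 0) (Tm.const a)).imp hP.not)
    · intro m hm
      exact absurd hm (not_lt_of_ge (nonneg' m))
    · intro n ih m hm hma hPm
      rcases lt_or_eq_of_le (lt_succ.1 hm) with h | rfl
      · exact ih m h hma hPm
      · obtain ⟨k, hk, hPk⟩ := hcon m hma hPm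
        exact ih k hk (le_trans hk.le hma) hPk
  exact key (a + 1) a (lt_succ.2 le_rfl) le_rfl ha

/-- `Δ⁰₁` comprehension -/
theorem comp1 {P : N.M → Prop} {Q Q' : N.M → N.M → Prop}
    (hQ : D0 (fun v => Q (v 1) (v 0))) (hQ' : D0 (fun v => Q' (v 1) (v 0)))
    (h1 : ∀ n, P n ↔ ∃ k, Q n k) (h2 : ∀ n, ¬ P n ↔ ∃ k, Q' n k) : {n | P n} ∈ N.Sets := by
  obtain ⟨φ, hφ⟩ := hQ
  obtain ⟨ψ, hψ⟩ := hQ'
  have e1 : ∀ n, (∃ k, φ.Holds (cons k (cons n (fun _ => (0 : N.M))))) ↔ P n := fun n => by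
    rw [h1]
    exact exists_congr fun k => hφ _
  have e2 : ∀ n, (∀ k, (Delta0.neg ψ).Holds (cons k (cons n (fun _ => (0 : N.M))))) ↔ P n :=
    fun n => by
    have h3 := h2 n
    have h4 : (∃ k, ψ.Holds (cons k (cons n (fun _ => (0 : N.M))))) ↔ ∃ k, Q' n k :=
      exists_congr fun k => hψ _
    simp only [Delta0.Holds]
    rw [← not_exists, h4, ← h3, not_not]
  have := delta1_comprehension φ (.neg ψ) (fun _ => (0 : N.M)) (fun n => (e1 n).trans (e2 n).symm)
  simpa only [e1] using this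

theorem comp0 {P : N.M → Prop} (h : D0 (fun v => P (v 0))) : {n | P n} ∈ N.Sets :=
  comp1 (Q := fun n _ => P n) (Q' := fun n _ => ¬ P n)
    (h.comp (g := fun v => cons (v 1) v) (CM.cons (Tm.var 1) CM.id))
    (h.not.comp (g := fun v => cons (v 1) v) (CM.cons (Tm.var 1) CM.id))
    (fun n => by simp) (fun n => by simp)

/-! ### pairs -/

theorem pair_def (x y : N.M) : N.pair x y = (x + y) * (x + y) + x := rfl

theorem le_sq (a : N.M) : a ≤ a * a := by
  rcases eq_zero_or_succ' a with h | ⟨b, h⟩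
  · subst h; rw [mul_zero]
  · subst h
    calc b + 1 = (b + 1) * 1 := by ring
      _ ≤ (b + 1) * (b + 1) := by
        gcongr
        exact le_add_of_nonneg_left (nonneg' b)

theorem fst_le (x y : N.M) : x ≤ N.pair x y := le_add_of_nonneg_left (nonneg' _)

theorem snd_le (x y : N.M) : y ≤ N.pair x y := by
  calc y ≤ x + y := le_add_of_nonneg_left (nonneg' x)
    _ ≤ (x + y) * (x + y) := le_sq _
    _ ≤ N.pair x y := le_add_of_nonneg_right (nonneg' _)

theorem pair_lt {x y x' y' : N.M} (h : x + y < x' + y') : N.pair x y < N.pair x' y' := by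
  have h1 : x + y + 1 ≤ x' + y' := succ_le.2 h
  have h2 : (x + y + 1) * (x + y + 1) ≤ (x' + y') * (x' + y') := by gcongr
  have h3 : N.pair x y < (x + y + 1) * (x + y + 1) := by
    refine lt_of_lt_of_le (lt_succ.2 le_rfl) (le_iff_ex.2 ⟨x + y + y, ?_⟩)
    rw [pair_def]; ring
  calc N.pair x y < (x + y + 1) * (x + y + 1) := h3
    _ ≤ (x' + y') * (x' + y') := h2
    _ ≤ N.pair x' y' := le_add_of_nonneg_right (nonneg' _)

theorem pair_inj {x y x' y' : N.M} (h : N.pair x y = N.pair x' y') : x = x' ∧ y = y' := by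
  rcases lt_trichotomy (x + y) (x' + y') with h1 | h1 | h1
  · exact absurd h (pair_lt h1).ne
  · rw [pair_def, pair_def, h1] at h
    have hx : x = x' := add_left_cancel h
    subst hx
    exact ⟨rfl, add_left_cancel h1⟩
  · exact absurd h (pair_lt h1).ne'

theorem tm_pair {s t : Ctx N → N.M} (hs : Tm s) (ht : Tm t) :
    Tm (fun v => N.pair (s v) (t v)) :=
  tm_add (tm_mul (tm_add hs ht) (tm_add hs ht)) hs

theorem d0_rel {R : N.M → N.M → Prop} (h : RelIn N R) {s t : Ctx N → N.M} (hs : Tm s)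
    (ht : Tm t) : D0 (fun v => R (s v) (t v)) :=
  (D0.mem (tm_pair hs ht) h).congr fun v => by
    constructor
    · rintro ⟨x, y, hR, e⟩
      obtain ⟨h1, h2⟩ := pair_inj e
      rw [h1, h2]; exact hR
    · intro hR
      exact ⟨_, _, hR, rfl⟩

theorem relIn_of {R : N.M → N.M → Prop} (h : D0 (fun v => R (v 0) (v 1))) : RelIn N R := by
  have : {p | ∃ x y, R x y ∧ p = N.pair x y} =
      {p | ∃ x, x ≤ p ∧ ∃ y, y ≤ p ∧ (R x y ∧ p = N.pair x y)} := by
    ext p
    constructor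
    · rintro ⟨x, y, hR, e⟩
      exact ⟨x, e ▸ fst_le x y, y, e ▸ snd_le x y, hR, e⟩
    · rintro ⟨x, _, y, _, hR, e⟩
      exact ⟨x, y, hR, e⟩
  unfold RelIn
  rw [this]
  refine comp0 (P := fun p => ∃ x, x ≤ p ∧ ∃ y, y ≤ p ∧ (R x y ∧ p = N.pair x y)) ?_
  refine d0_bexLe (P := fun v x => ∃ y, y ≤ v 0 ∧ (R x y ∧ v 0 = N.pair x y)) (Tm.var 0) ?_
  refine d0_bexLe (P := fun v y => R (v 0) y ∧ v 1 = N.pair (v 0) y) (Tm.var 1) ?_
  refine D0.and ?_ ?_
  · exact h.comp (g := fun v => cons (v 1) (cons (v 0) v)) (CM.cons (Tm.var 1)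
      (CM.cons (Tm.var 0) CM.id))
  · exact D0.eq (Tm.var 2) (tm_pair (Tm.var 1) (Tm.var 0))

end Pool.Agent.TH748.COH
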