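import Mathlib
import Pool.Agent.TH748.COH.Arith

namespace Pool.Agent.TH748.COH

open Pool.Agent.Helper617.RM

universe u

set_option linter.unusedSectionVars false
set_option linter.unusedVariables false

variable {N : L2Structure.{u}} [IsModelRCA0star N]

open IsModelRCA0star

/-- A decreasing sequence of nonempty order-convex subsets of a bounded part has a common point. -/
theorem nested {G : N.M → N.M → Prop} (hG : D0 (fun v => G (v 0) (v 1)))
    (hmono : ∀ x x' s, x ≤ x' → G x' s → G x s)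
    (hconv : ∀ x s₁ s s₂, s₁ ≤ s → s ≤ s₂ → G x s₁ → G x s₂ → G x s)
    (hsat : ∀ x, ∃ s, G x s) {B : N.M} (hB : ∀ x s, G x s → s < B) : ∃ s, ∀ x, G x s := by
  by_contra hcon
  push Not at hcon
  have h2 : ∀ s, ¬ (∃ x, ∀ s', s' ≤ s → ¬ G x s') ↔ ∃ x, ∀ s', s' < B → s ≤ s' → ¬ G x s' := by
    intro s
    constructor
    · intro h
      push Not at h
      obtain ⟨x, hx⟩ := hcon s
      refine ⟨x, fun s'' _ hs'' hG'' => ?_⟩
      obtain ⟨s', hs', hG'⟩ := h x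
      exact hx (hconv x s' s s'' hs' hs'' hG' hG'')
    · rintro ⟨x, hx⟩ ⟨y, hy⟩
      obtain ⟨s₃, h₃⟩ := hsat (max x y)
      rcases le_total s₃ s with h | h
      · exact hy s₃ h (hmono _ _ _ (le_max_right _ _) h₃)
      · exact hx s₃ (hB _ _ h₃) h (hmono _ _ _ (le_max_left _ _) h₃)
  have hV : {s | ∃ x, ∀ s', s' ≤ s → ¬ G x s'} ∈ N.Sets := by
    refine comp1 (Q := fun s x => ∀ s', s' ≤ s → ¬ G x s')
      (Q' := fun s x => ∀ s', s' < B → s ≤ s' → ¬ G x s') ?_ ?_ (fun n => Iff.rfl) h2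
    · refine d0_ballLe (P := fun v s' => ¬ G (v 0) s') (Tm.var 1) (D0.not ?_)
      exact hG.comp (g := fun w => cons (w 1) (cons (w 0) w)) (CM.cons (Tm.var 1)
        (CM.cons (Tm.var 0) CM.id))
    · refine d0_ball (P := fun v s' => v 1 ≤ s' → ¬ G (v 0) s') (Tm.const B)
        ((d0_le (Tm.var 2) (Tm.var 0)).imp (D0.not ?_))
      exact hG.comp (g := fun w => cons (w 1) (cons (w 0) w)) (CM.cons (Tm.var 1)
        (CM.cons (Tm.var 0) CM.id))
  have hall : ∀ s, s ∈ {s | ∃ x, ∀ s', s' ≤ s → ¬ G x s'} := by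
    intro s
    refine ind0 (P := fun s => s ∈ {s | ∃ x, ∀ s', s' ≤ s → ¬ G x s'}) (D0.mem (Tm.var 0) hV)
      ?_ ?_ s
    · by_contra h
      obtain ⟨x, hx⟩ := (h2 0).1 h
      obtain ⟨s, hs⟩ := hsat x
      exact hx s (hB _ _ hs) (nonneg' s) hs
    · rintro s ⟨x, hx⟩
      by_contra h
      obtain ⟨y, hy⟩ := (h2 (s + 1)).1 h
      obtain ⟨s₃, h₃⟩ := hsat (max x y)
      rcases lt_or_ge s s₃ with h | h
      · exact hy s₃ (hB _ _ h₃) (succ_le.2 h) (hmono _ _ _ (le_max_right _ _) h₃)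
      · exact hx s₃ h (hmono _ _ _ (le_max_left _ _) h₃)
  obtain ⟨x, hx⟩ := hall B
  obtain ⟨s, hs⟩ := hsat x
  exact hx s (hB _ _ hs).le hs

/-! ### powers of two -/

/-- `w m = 2 ^ (c - m)` for `m ≤ c` -/
structure Pow (c : N.M) (w : N.M → N.M) : Prop where
  rel : RelIn N (fun m q => q = w m)
  top : w c = 1
  step : ∀ m, m < c → w m = w (m + 1) + w (m + 1)
  pos : ∀ m, 0 < w m
  le : ∀ m, w m ≤ w 0

theorem pos_iff {a : N.M} : 0 < a ↔ a ≠ 0 :=
  ⟨fun h => h.ne', fun h => lt_of_le_of_ne (nonneg' a) (Ne.symm h)⟩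

theorem add_self_eq_zero {a : N.M} (h : a + a = 0) : a = 0 := by
  by_contra h0
  have h1 : 0 < a := pos_iff.2 h0
  have : 0 < a + a := lt_of_lt_of_le h1 (le_iff_ex.2 ⟨a, rfl⟩)
  exact absurd h this.ne'

theorem exists_pow (c : N.M) : ∃ w : N.M → N.M, Pow c w := by
  obtain ⟨e, he, he0, hes⟩ := ax_exp (N := N)
  have hes' : ∀ k, e (k + 1) = e k + e k := hes
  have hene : ∀ k, ¬ (0 : N.M) = e k := by
    intro k
    refine ind0 (P := fun k => ¬ (0 : N.M) = e k) ?_ ?_ ?_ k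
    · exact (d0_rel he (Tm.var 0) tm_zero).not
    · intro h
      exact (show (0 : N.M) < 1 from ax_zero_lt_one).ne (h.trans he0)
    · intro k ih h
      rw [hes'] at h
      exact ih (add_self_eq_zero h.symm).symm
  have hsub : ∀ m, ∃ k, (m ≤ c ∧ c = m + k) ∨ (c < m ∧ k = 0) := by
    intro m
    rcases le_or_gt m c with h | h
    · obtain ⟨k, hk⟩ := le_iff_ex.1 h
      exact ⟨k, Or.inl ⟨h, hk⟩⟩
    · exact ⟨0, Or.inr ⟨h, rfl⟩⟩
  choose sub hsub using hsub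
  have hle : ∀ n, ∀ k, k ≤ c → k + n = c → ∃ z, z ≤ e c ∧ z = e k := by
    intro n
    refine ind0 (P := fun n => ∀ k, k ≤ c → k + n = c → ∃ z, z ≤ e c ∧ z = e k) ?_ ?_ ?_ n
    · refine d0_ballLe (P := fun v k => k + v 0 = c → ∃ z, z ≤ e c ∧ z = e k) (Tm.const c)
        (D0.imp (D0.eq (tm_add (Tm.var 0) (Tm.var 1)) (Tm.const c)) ?_)
      refine d0_bexLe (P := fun v z => z = e (v 0)) (Tm.const (e c)) ?_
      exact d0_rel he (Tm.var 1) (Tm.var 0)
    · intro k _ hk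
      rw [add_zero] at hk
      exact ⟨e c, le_rfl, by rw [hk]⟩
    · intro n ih k hk hkn
      have h1 : k + 1 + n = c := by rw [← hkn]; ring
      have h2 : k + 1 ≤ c := le_iff_ex.2 ⟨n, h1.symm⟩
      obtain ⟨z, hz, hz'⟩ := ih (k + 1) h2 h1
      refine ⟨e k, le_trans ?_ hz, rfl⟩
      rw [hz', hes']
      exact le_iff_ex.2 ⟨e k, rfl⟩
  have hle' : ∀ k, k ≤ c → e k ≤ e c := by
    intro k hk
    obtain ⟨n, hn⟩ := le_iff_ex.1 hk
    obtain ⟨z, hz, hz'⟩ := hle n k hk hn.symm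
    rwa [← hz']
  have hsub0 : sub 0 = c := by
    rcases hsub 0 with ⟨_, h⟩ | ⟨h, _⟩
    · rw [zero_add] at h; exact h.symm
    · exact absurd h (not_lt.2 (nonneg' c))
  refine ⟨fun m => e (sub m), ?_, ?_, ?_, ?_, ?_⟩
  · refine relIn_of (D0.congr (R := fun v => (∃ k, k ≤ c ∧ (c = v 0 + k ∧ v 1 = e k)) ∨
      (c < v 0 ∧ v 1 = 1)) ?_ ?_)
    · refine D0.or (d0_bexLe (P := fun v k => c = v 0 + k ∧ v 1 = e k) (Tm.const c)
        (D0.and (D0.eq (Tm.const c) (tm_add (Tm.var 1) (Tm.var 0)))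
          (d0_rel he (Tm.var 0) (Tm.var 2)))) ?_
      exact (d0_lt (Tm.const c) (Tm.var 0)).and (D0.eq (Tm.var 1) tm_one)
    · intro v
      rcases hsub (v 0) with ⟨h1, h2⟩ | ⟨h1, h2⟩
      · constructor
        · rintro (⟨k, _, hk, hk'⟩ | ⟨h, _⟩)
          · have : k = sub (v 0) := add_left_cancel (hk.symm.trans h2)
            rw [← this]; exact hk'
          · exact absurd h1 (not_le.2 h)
        · intro h
          exact Or.inl ⟨sub (v 0), le_iff_ex.2 ⟨v 0, by rw [add_comm]; exact h2⟩, h2, h⟩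
      · constructor
        · rintro (⟨k, _, hk, hk'⟩ | ⟨_, h⟩)
          · exact absurd h1 (not_lt.2 (le_iff_ex.2 ⟨k, hk⟩))
          · show v 1 = e (sub (v 0))
            rw [h2, h]; exact he0.symm
        · intro h
          refine Or.inr ⟨h1, ?_⟩
          have h : v 1 = e (sub (v 0)) := h
          rw [h, h2]; exact he0
  · have : sub c = 0 := by
      rcases hsub c with ⟨_, h⟩ | ⟨h, _⟩
      · exact (add_left_cancel (a := c) (by rw [add_zero]; exact h)).symm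
      · exact absurd h (lt_irrefl _)
    show e (sub c) = 1
    rw [this]; exact he0
  · intro m hm
    show e (sub m) = e (sub (m + 1)) + e (sub (m + 1))
    rw [← hes']
    congr 1
    rcases hsub m with ⟨_, h⟩ | ⟨h, _⟩
    · rcases hsub (m + 1) with ⟨_, h'⟩ | ⟨h', _⟩
      · refine add_left_cancel (a := m) ?_
        rw [← h, h']; ring
      · exact absurd (succ_le.2 hm) (not_le.2 h')
    · exact absurd hm (not_lt.2 h.le)
  · intro m
    exact pos_iff.2 fun h => hene _ h.symm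
  · intro m
    show e (sub m) ≤ e (sub 0)
    rw [hsub0]
    refine hle' _ ?_
    rcases hsub m with ⟨_, h⟩ | ⟨_, h⟩
    · exact le_iff_ex.2 ⟨m, by rw [add_comm]; exact h⟩
    · rw [h]; exact nonneg' c

/-! ### prefixes and bits -/

/-- `p` is the number coded by the first `m` bits of `s` -/
def Pre (w : N.M → N.M) (s m p : N.M) : Prop := p * w m ≤ s ∧ s < (p + 1) * w m

/-- bit number `n` of `s` is `1` -/
def Bit (w : N.M → N.M) (s n : N.M) : Prop := ∃ p, p ≤ s ∧ Pre w s (n + 1) (p + p + 1)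

variable {c : N.M} {w : N.M → N.M}

theorem d0_fn (hw : Pow c w) {P : Ctx N → N.M → Prop} (hP : D0 (fun v => P (tail v) (v 0)))
    {m : Ctx N → N.M} (hm : Tm m) : D0 (fun v => P v (w (m v))) := by
  refine (d0_bexLe (P := fun v q => q = w (m v) ∧ P v q) (Tm.const (w 0))
    (D0.and (d0_rel hw.rel hm.tail (Tm.var 0)) hP)).congr fun v => ?_
  constructor
  · rintro ⟨q, _, rfl, h⟩; exact h
  · intro h; exact ⟨_, hw.le _, rfl, h⟩

theorem d0_pre (hw : Pow c w) {s m p : Ctx N → N.M} (hs : Tm s) (hm : Tm m) (hp : Tm p) :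
    D0 (fun v => Pre w (s v) (m v) (p v)) := by
  refine d0_fn hw (P := fun v q => p v * q ≤ s v ∧ s v < (p v + 1) * q) ?_ hm
  exact (d0_le (tm_mul hp.tail (Tm.var 0)) hs.tail).and
    (d0_lt hs.tail (tm_mul (tm_add hp.tail tm_one) (Tm.var 0)))

theorem d0_bit (hw : Pow c w) {s n : Ctx N → N.M} (hs : Tm s) (hn : Tm n) :
    D0 (fun v => Bit w (s v) (n v)) :=
  d0_bexLe (P := fun v p => Pre w (s v) (n v + 1) (p + p + 1)) hs
    (d0_pre hw hs.tail (tm_add hn.tail tm_one) (tm_add (tm_add (Tm.var 0) (Tm.var 0)) tm_one))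

theorem pre_unique (hw : Pow c w) {s m p p' : N.M} (h : Pre w s m p) (h' : Pre w s m p') :
    p = p' := by
  have aux : ∀ p p' : N.M, Pre w s m p → Pre w s m p' → ¬ p < p' := by
    intro p p' h h' hlt
    have h1 : (p + 1) * w m ≤ p' * w m := mul_le_mul_of_nonneg_right (succ_le.2 hlt) (nonneg' _)
    exact absurd (lt_of_lt_of_le h.2 h1) (not_lt.2 h'.1)
  exact le_antisymm (not_lt.1 (aux _ _ h' h)) (not_lt.1 (aux _ _ h h'))

theorem pre_exists (hw : Pow c w) (s m : N.M) : ∃ p, p ≤ s ∧ Pre w s m p := by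
  have h0 : s < (s + 1) * w m := by
    have h1 : (1 : N.M) ≤ w m := by
      have := succ_le.2 (hw.pos m)
      rwa [zero_add] at this
    calc s < (s + 1) * 1 := by rw [mul_one]; exact lt_succ.2 le_rfl
      _ ≤ (s + 1) * w m := mul_le_mul_of_nonneg_left h1 (nonneg' _)
  obtain ⟨p, hp, h1, h2⟩ := lnp0 (P := fun p => s < (p + 1) * w m)
    (d0_lt (Tm.const s) (tm_mul (tm_add (Tm.var 0) tm_one) (Tm.const (w m)))) h0
  refine ⟨p, hp, ?_, h1⟩
  rcases eq_zero_or_succ' p with rfl | ⟨q, rfl⟩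
  · rw [zero_mul]; exact nonneg' s
  · exact not_lt.1 (h2 q (lt_succ.2 le_rfl))

theorem pre_le (hw : Pow c w) {s m p : N.M} (h : Pre w s m p) : p ≤ s := by
  obtain ⟨p', h1, h2⟩ := pre_exists hw s m
  rw [pre_unique hw h h2]; exact h1

theorem parity {a b : N.M} : a + a ≠ b + b + 1 := by
  intro h
  rcases le_or_gt a b with h1 | h1
  · have : a + a ≤ b + b := add_le_add h1 h1
    exact absurd h (lt_of_le_of_lt this (lt_succ.2 le_rfl)).ne
  · have h2 := succ_le.2 h1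
    have h3 : b + 1 + (b + 1) ≤ a + a := add_le_add h2 h2
    rw [h] at h3
    have h4 : b + 1 + (b + 1) = b + b + 1 + 1 := by ring
    rw [h4] at h3
    exact absurd (succ_le.1 h3) (lt_irrefl _)

theorem dbl_inj {a b : N.M} (h : a + a = b + b) : a = b := by
  rcases lt_trichotomy a b with h1 | h1 | h1
  · exact absurd h (add_lt_add h1 h1).ne
  · exact h1
  · exact absurd h (add_lt_add h1 h1).ne'

theorem dbl_inj' {a b : N.M} (h : a + a + 1 = b + b + 1) : a = b :=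
  dbl_inj (add_right_cancel h)

theorem bit_iff (hw : Pow c w) {s n p : N.M} (h : Pre w s (n + 1) p) :
    Bit w s n ↔ ∃ q, p = q + q + 1 := by
  constructor
  · rintro ⟨q, _, hq⟩
    exact ⟨q, pre_unique hw h hq⟩
  · rintro ⟨q, rfl⟩
    refine ⟨q, le_trans ?_ (pre_le hw h), h⟩
    exact le_iff_ex.2 ⟨q + 1, by ring⟩

theorem pre_up (hw : Pow c w) {s m p : N.M} (hm : m < c) (h : Pre w s m p) :
    (Pre w s (m + 1) (p + p) ∧ ¬ Bit w s m) ∨ (Pre w s (m + 1) (p + p + 1) ∧ Bit w s m) := by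
  obtain ⟨h1, h2⟩ := h
  rw [hw.step m hm] at h1 h2
  rcases lt_or_ge s ((p + p + 1) * w (m + 1)) with h3 | h3
  · left
    have hp : Pre w s (m + 1) (p + p) := ⟨le_trans (le_of_eq (by ring)) h1, h3⟩
    refine ⟨hp, fun hb => ?_⟩
    obtain ⟨q, hq⟩ := (bit_iff hw hp).1 hb
    exact parity hq
  · right
    have hp : Pre w s (m + 1) (p + p + 1) := ⟨h3, lt_of_lt_of_le h2 (le_of_eq (by ring))⟩
    exact ⟨hp, (bit_iff hw hp).2 ⟨p, rfl⟩⟩

theorem pre_down (hw : Pow c w) {s m p : N.M} (hm : m < c) (h : Pre w s (m + 1) p) :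
    ∃ p', Pre w s m p' ∧ (p = p' + p' ∨ p = p' + p' + 1) := by
  obtain ⟨p', _, hp'⟩ := pre_exists hw s m
  refine ⟨p', hp', ?_⟩
  rcases pre_up hw hm hp' with ⟨h1, _⟩ | ⟨h1, _⟩
  · exact Or.inl (pre_unique hw h h1)
  · exact Or.inr (pre_unique hw h h1)

/-- the first `m` bits agree -/
def Ag (w : N.M → N.M) (s t m : N.M) : Prop := ∃ p, p ≤ s ∧ (Pre w s m p ∧ Pre w t m p)

theorem d0_ag (hw : Pow c w) {s t m : Ctx N → N.M} (hs : Tm s) (ht : Tm t) (hm : Tm m) :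
    D0 (fun v => Ag w (s v) (t v) (m v)) :=
  d0_bexLe (P := fun v p => Pre w (s v) (m v) p ∧ Pre w (t v) (m v) p) hs
    ((d0_pre hw hs.tail hm.tail (Tm.var 0)).and (d0_pre hw ht.tail hm.tail (Tm.var 0)))

theorem ag_of (hw : Pow c w) {s t m p : N.M} (h : Pre w s m p) (h' : Pre w t m p) :
    Ag w s t m := ⟨p, pre_le hw h, h, h'⟩

theorem ag_bit (hw : Pow c w) {s t m : N.M} (h : Ag w s t (m + 1)) : Bit w s m ↔ Bit w t m := by
  obtain ⟨p, _, h1, h2⟩ := h
  rw [bit_iff hw h1, bit_iff hw h2]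

theorem ag_down (hw : Pow c w) {s t m : N.M} (hm : m < c) (h : Ag w s t (m + 1)) :
    Ag w s t m := by
  obtain ⟨p, _, h1, h2⟩ := h
  obtain ⟨q, hq, hpq⟩ := pre_down hw hm h1
  obtain ⟨r, hr, hpr⟩ := pre_down hw hm h2
  have : q = r := by
    rcases hpq with rfl | rfl
    · rcases hpr with h | h
      · exact dbl_inj h
      · exact absurd h parity
    · rcases hpr with h | h
      · exact absurd h.symm parity
      · exact dbl_inj' h
  subst this
  exact ag_of hw hq hr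

theorem ag_le (hw : Pow c w) {s t n m : N.M} (hn : n ≤ m) (hm : m ≤ c) (h : Ag w s t m) :
    Ag w s t n := by
  have key : ∀ k, ∀ n, n ≤ m → n + k = m → Ag w s t n := by
    intro k
    refine ind0 (P := fun k => ∀ n, n ≤ m → n + k = m → Ag w s t n) ?_ ?_ ?_ k
    · exact d0_ballLe (P := fun v n => n + v 0 = m → Ag w s t n) (Tm.const m)
        ((D0.eq (tm_add (Tm.var 0) (Tm.var 1)) (Tm.const m)).imp
          (d0_ag hw (Tm.const s) (Tm.const t) (Tm.var 0)))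
    · intro n _ hnm
      rw [add_zero] at hnm
      rw [hnm]; exact h
    · intro k ih n hn hnk
      have h1 : n + 1 + k = m := by rw [← hnk]; ring
      have h2 : n + 1 ≤ m := le_iff_ex.2 ⟨k, h1.symm⟩
      exact ag_down hw (lt_of_lt_of_le (succ_le.1 h2) hm) (ih (n + 1) h2 h1)
  obtain ⟨k, hk⟩ := le_iff_ex.1 hn
  exact key k n hn hk.symm

theorem ag_up (hw : Pow c w) {s t m : N.M} (hm : m < c) (h : Ag w s t m)
    (hb : Bit w s m ↔ Bit w t m) : Ag w s t (m + 1) := by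
  obtain ⟨p, _, h1, h2⟩ := h
  rcases pre_up hw hm h1 with ⟨h3, h4⟩ | ⟨h3, h4⟩
  · rcases pre_up hw hm h2 with ⟨h5, h6⟩ | ⟨h5, h6⟩
    · exact ag_of hw h3 h5
    · exact absurd (hb.2 h6) h4
  · rcases pre_up hw hm h2 with ⟨h5, h6⟩ | ⟨h5, h6⟩
    · exact absurd (hb.1 h4) h6
    · exact ag_of hw h3 h5

theorem ag_zero (hw : Pow c w) {s t : N.M} (hs : s < w 0) (ht : t < w 0) : Ag w s t 0 := by
  have h : ∀ s, s < w 0 → Pre w s 0 0 := fun s hs =>
    ⟨by rw [zero_mul]; exact nonneg' s, by rw [zero_add, one_mul]; exact hs⟩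
  exact ag_of hw (h s hs) (h t ht)

theorem ag_conv (hw : Pow c w) {s₁ s s₂ m : N.M} (h1 : s₁ ≤ s) (h2 : s ≤ s₂)
    (h : Ag w s₁ s₂ m) : Ag w s₁ s m := by
  obtain ⟨p, _, h3, h4⟩ := h
  exact ag_of hw h3 ⟨le_trans h3.1 h1, lt_of_le_of_lt h2 h4.2⟩

end Pool.Agent.TH748.COH
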