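import Mathlib
import Pool.Agent.TH748.COH.Bits

namespace Pool.Agent.TH748.COH

open Pool.Agent.Helper617.RM

universe u

set_option linter.unusedSectionVars false
set_option linter.unusedVariables false

variable {N : L2Structure.{u}} [IsModelRCA0star N]

open IsModelRCA0star

section

variable (T : N.M → N.M → Prop) (C : Set N.M)

/-- at stage `x` all numbers below `n` have a witness -/
def Jx (x n : N.M) : Prop := ∀ m, m < n → ∃ k, k ≤ x ∧ T k m

/-- `n` is the level of the stage `x` -/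
def Lev (x n : N.M) : Prop := Jx T x n ∧ ¬ Jx T x (n + 1)

/-- `n` is the level of a member of `C` which is at most `x` -/
def Dx (x n : N.M) : Prop := ∃ y, y ≤ x ∧ (y ∈ C ∧ Lev T y n)

/-- the bit number `n` is as required -/
def Sp (w : N.M → N.M) (x s n : N.M) : Prop :=
  (n = 0 → ¬ Bit w s 0) ∧ ∀ n', n' < n → n = n' + 1 → (Bit w s n ↔ ¬ (Bit w s n' ↔ Dx T C x n))

/-- all bits below the level of `x` are as required -/
def GG (c : N.M) (w : N.M → N.M) (x s : N.M) : Prop :=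
  s < w 0 ∧ ∀ n, n < c → Jx T x (n + 1) → Sp T C w x s n

/-- the sequence of sets to which cohesiveness is applied -/
def RR (c : N.M) (w : N.M → N.M) (t x : N.M) : Prop := ∃ n, n < c ∧ (Lev T x n ∧ Bit w t n)

end

variable {T : N.M → N.M → Prop} {C : Set N.M} {c : N.M} {w : N.M → N.M}

theorem d0_Jx (hT : D0 (fun v => T (v 0) (v 1))) {x n : Ctx N → N.M} (hx : Tm x) (hn : Tm n) :
    D0 (fun v => Jx T (x v) (n v)) := by
  refine d0_ball (P := fun v m => ∃ k, k ≤ x v ∧ T k m) hn ?_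
  refine d0_bexLe (P := fun v k => T k (v 0)) hx.tail ?_
  exact hT.comp (g := fun v => cons (v 0) (cons (v 1) v)) (CM.cons (Tm.var 0)
    (CM.cons (Tm.var 1) CM.id))

theorem d0_Lev (hT : D0 (fun v => T (v 0) (v 1))) {x n : Ctx N → N.M} (hx : Tm x) (hn : Tm n) :
    D0 (fun v => Lev T (x v) (n v)) :=
  (d0_Jx hT hx hn).and (d0_Jx hT hx (tm_add hn tm_one)).not

theorem d0_Dx (hT : D0 (fun v => T (v 0) (v 1))) (hC : C ∈ N.Sets) {x n : Ctx N → N.M}
    (hx : Tm x) (hn : Tm n) : D0 (fun v => Dx T C (x v) (n v)) :=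
  d0_bexLe (P := fun v y => y ∈ C ∧ Lev T y (n v)) hx
    ((D0.mem (Tm.var 0) hC).and (d0_Lev hT (Tm.var 0) hn.tail))

theorem d0_Sp (hT : D0 (fun v => T (v 0) (v 1))) (hC : C ∈ N.Sets) (hw : Pow c w)
    {x s n : Ctx N → N.M} (hx : Tm x) (hs : Tm s) (hn : Tm n) :
    D0 (fun v => Sp T C w (x v) (s v) (n v)) := by
  refine ((D0.eq hn tm_zero).imp (d0_bit hw hs tm_zero).not).and ?_
  refine d0_ball (P := fun v n' => n v = n' + 1 →
    (Bit w (s v) (n v) ↔ ¬ (Bit w (s v) n' ↔ Dx T C (x v) (n v)))) hn ?_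
  refine (D0.eq hn.tail (tm_add (Tm.var 0) tm_one)).imp ?_
  exact (d0_bit hw hs.tail hn.tail).iff
    ((d0_bit hw hs.tail (Tm.var 0)).iff (d0_Dx hT hC hx.tail hn.tail)).not

theorem d0_GG (hT : D0 (fun v => T (v 0) (v 1))) (hC : C ∈ N.Sets) (hw : Pow c w) :
    D0 (fun v => GG T C c w (v 0) (v 1)) := by
  refine (d0_lt (Tm.var 1) (Tm.const (w 0))).and ?_
  refine d0_ball (P := fun v n => Jx T (v 0) (n + 1) → Sp T C w (v 0) (v 1) n) (Tm.const c) ?_
  exact (d0_Jx hT (Tm.var 1) (tm_add (Tm.var 0) tm_one)).imp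
    (d0_Sp hT hC hw (Tm.var 1) (Tm.var 2) (Tm.var 0))

theorem Jx.mono {x x' n : N.M} (h : Jx T x n) (hx : x ≤ x') : Jx T x' n := fun m hm => by
  obtain ⟨k, hk, hT⟩ := h m hm
  exact ⟨k, le_trans hk hx, hT⟩

theorem Jx.anti {x n n' : N.M} (h : Jx T x n) (hn : n' ≤ n) : Jx T x n' := fun m hm =>
  h m (lt_of_lt_of_le hm hn)

theorem Jx.zero {x : N.M} : Jx T x 0 := fun m hm => absurd hm (not_lt.2 (nonneg' m))

/-- a stage below the level -/
theorem lev_lt {x y n : N.M} (h : Jx T x (n + 1)) (hy : ¬ Jx T y (n + 1)) : y < x := by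
  by_contra hcon
  exact hy (h.mono (not_lt.1 hcon))

theorem lev_unique {x n n' : N.M} (h : Lev T x n) (h' : Lev T x n') : n = n' := by
  rcases lt_trichotomy n n' with h1 | h1 | h1
  · exact absurd (h'.1.anti (succ_le.2 h1)) h.2
  · exact h1
  · exact absurd (h.1.anti (succ_le.2 h1)) h'.2

theorem dx_iff {x x' n : N.M} (h : Jx T x (n + 1)) (hx : x ≤ x') :
    Dx T C x n ↔ Dx T C x' n := by
  constructor
  · rintro ⟨y, hy, h1⟩
    exact ⟨y, le_trans hy hx, h1⟩
  · rintro ⟨y, _, hyC, h1⟩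
    exact ⟨y, (lev_lt h h1.2).le, hyC, h1⟩

theorem sp_congr {x s x' s' n : N.M} (hb : Bit w s n ↔ Bit w s' n)
    (hb' : ∀ n', n = n' + 1 → (Bit w s n' ↔ Bit w s' n')) (hD : Dx T C x n ↔ Dx T C x' n) :
    Sp T C w x s n ↔ Sp T C w x' s' n := by
  unfold Sp
  refine and_congr ?_ (forall_congr' fun n' => forall_congr' fun _ => forall_congr' fun h => ?_)
  · refine forall_congr' fun h => ?_
    subst h
    rw [hb]
  · rw [hb, hb' n' h, hD]

theorem sp_det (hw : Pow c w) {x s s' n : N.M} (h : Ag w s s' n) (h1 : Sp T C w x s n)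
    (h2 : Sp T C w x s' n) : Bit w s n ↔ Bit w s' n := by
  rcases eq_zero_or_succ' n with rfl | ⟨m, rfl⟩
  · exact ⟨fun h => absurd h (h1.1 rfl), fun h => absurd h (h2.1 rfl)⟩
  · rw [h1.2 m (lt_succ.2 le_rfl) rfl, h2.2 m (lt_succ.2 le_rfl) rfl, ag_bit hw h]

theorem gg_mono {x x' s : N.M} (hx : x ≤ x') (h : GG T C c w x' s) : GG T C c w x s := by
  refine ⟨h.1, fun n hn hJ => ?_⟩
  exact (sp_congr Iff.rfl (fun _ _ => Iff.rfl) (dx_iff hJ hx)).2 (h.2 n hn (hJ.mono hx))

theorem gg_conv (hT : D0 (fun v => T (v 0) (v 1))) (hw : Pow c w) {x s₁ s s₂ : N.M}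
    (h1 : s₁ ≤ s) (h2 : s ≤ s₂) (hG1 : GG T C c w x s₁) (hG2 : GG T C c w x s₂) :
    GG T C c w x s := by
  have key : ∀ m, m ≤ c → Jx T x m → Ag w s₁ s₂ m := by
    intro m
    refine ind0 (P := fun m => m ≤ c → Jx T x m → Ag w s₁ s₂ m) ?_ ?_ ?_ m
    · exact (d0_le (Tm.var 0) (Tm.const c)).imp ((d0_Jx hT (Tm.const x) (Tm.var 0)).imp
        (d0_ag hw (Tm.const s₁) (Tm.const s₂) (Tm.var 0)))
    · intro _ _
      exact ag_zero hw hG1.1 hG2.1
    · intro m ih hm hJ
      have hm' : m < c := succ_le.1 hm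
      have hA := ih hm'.le (hJ.anti (lt_succ.2 le_rfl).le)
      exact ag_up hw hm' hA (sp_det hw hA (hG1.2 m hm' hJ) (hG2.2 m hm' hJ))
  refine ⟨lt_of_le_of_lt h2 hG2.1, fun n hn hJ => ?_⟩
  have e1 := ag_conv hw h1 h2 (key (n + 1) (succ_le.2 hn) hJ)
  refine (sp_congr (ag_bit hw e1) (fun n' hn' => ?_) Iff.rfl).1 (hG1.2 n hn hJ)
  subst hn'
  exact ag_bit hw (ag_conv hw h1 h2 (key (n' + 1) hn.le (hJ.anti (lt_succ.2 le_rfl).le)))

theorem gg_sat (hT : D0 (fun v => T (v 0) (v 1))) (hC : C ∈ N.Sets) (hw : Pow c w) (x : N.M) :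
    ∃ s, GG T C c w x s := by
  have key : ∀ m, m ≤ c → ∃ s, s ≤ w 0 ∧ ((∃ q, q ≤ w 0 ∧ (q = w m ∧ s + q ≤ w 0)) ∧
      (∃ p, p ≤ s ∧ ∃ q, q ≤ w 0 ∧ (q = w m ∧ s = p * q)) ∧ ∀ n, n < m → Sp T C w x s n) := by
    intro m
    refine ind0 (P := fun m => m ≤ c → ∃ s, s ≤ w 0 ∧
      ((∃ q, q ≤ w 0 ∧ (q = w m ∧ s + q ≤ w 0)) ∧
      (∃ p, p ≤ s ∧ ∃ q, q ≤ w 0 ∧ (q = w m ∧ s = p * q)) ∧ ∀ n, n < m → Sp T C w x s n)) ?_ ?_ ?_ m
    · refine (d0_le (Tm.var 0) (Tm.const c)).imp ?_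
      refine d0_bexLe (P := fun v s => (∃ q, q ≤ w 0 ∧ (q = w (v 0) ∧ s + q ≤ w 0)) ∧
        (∃ p, p ≤ s ∧ ∃ q, q ≤ w 0 ∧ (q = w (v 0) ∧ s = p * q)) ∧
        ∀ n, n < v 0 → Sp T C w x s n) (Tm.const (w 0)) ?_
      refine D0.and ?_ (D0.and ?_ ?_)
      · refine d0_bexLe (P := fun v q => q = w (v 1) ∧ v 0 + q ≤ w 0) (Tm.const (w 0)) ?_
        exact (d0_rel hw.rel (Tm.var 2) (Tm.var 0)).and
          (d0_le (tm_add (Tm.var 1) (Tm.var 0)) (Tm.const (w 0)))
      · refine d0_bexLe (P := fun v p => ∃ q, q ≤ w 0 ∧ (q = w (v 1) ∧ v 0 = p * q))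
          (Tm.var 0) ?_
        refine d0_bexLe (P := fun v q => q = w (v 2) ∧ v 1 = v 0 * q) (Tm.const (w 0)) ?_
        exact (d0_rel hw.rel (Tm.var 3) (Tm.var 0)).and
          (D0.eq (Tm.var 2) (tm_mul (Tm.var 1) (Tm.var 0)))
      · refine d0_ball (P := fun v n => Sp T C w x (v 0) n) (Tm.var 1) ?_
        exact d0_Sp hT hC hw (Tm.const x) (Tm.var 1) (Tm.var 0)
    · intro _
      refine ⟨0, nonneg' _, ⟨w 0, le_rfl, rfl, by rw [zero_add]⟩,
        ⟨0, le_rfl, w 0, le_rfl, rfl, by rw [zero_mul]⟩, fun n hn => ?_⟩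
      exact absurd hn (not_lt.2 (nonneg' n))
    · intro m ih hm
      have hm' : m < c := succ_le.1 hm
      obtain ⟨s, hs, ⟨q, _, rfl, hq⟩, ⟨p, hp, q', _, rfl, hsp⟩, hSp⟩ := ih hm'.le
      have hstep := hw.step m hm'
      have hpos := hw.pos (m + 1)
      -- the two candidates
      have hlt1 : s < s + w m := by
        have := add_lt_add_r (hw.pos m) s
        rwa [zero_add, add_comm] at this
      have hlt2 : s + w (m + 1) < s + w m := by
        rw [hstep]
        have := add_lt_add_r hpos (s + w (m + 1))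
        rw [zero_add] at this
        calc s + w (m + 1) < w (m + 1) + (s + w (m + 1)) := this
          _ = s + (w (m + 1) + w (m + 1)) := by ring
      have hPs : Pre w s m p := ⟨hsp.ge, by
        calc s < s + w m := hlt1
          _ = (p + 1) * w m := by rw [add_mul, one_mul, ← hsp]⟩
      have hPs' : Pre w (s + w (m + 1)) m p := ⟨by
          rw [← hsp]; exact le_iff_ex.2 ⟨_, rfl⟩, by
        calc s + w (m + 1) < s + w m := hlt2
          _ = (p + 1) * w m := by rw [add_mul, one_mul, ← hsp]⟩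
      have hA : Ag w s (s + w (m + 1)) m := ag_of hw hPs hPs'
      have hnb : ¬ Bit w s m := by
        have h1 : Pre w s (m + 1) (p + p) := ⟨by rw [hsp, hstep]; exact le_of_eq (by ring), by
          calc s < s + w (m + 1) := by
                have := add_lt_add_r hpos s
                rwa [zero_add, add_comm] at this
            _ = (p + p + 1) * w (m + 1) := by
                conv_lhs => rw [hsp, hstep]
                ring⟩
        intro hb
        obtain ⟨r, hr⟩ := (bit_iff hw h1).1 hb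
        exact parity hr
      have hb : Bit w (s + w (m + 1)) m := by
        have h1 : Pre w (s + w (m + 1)) (m + 1) (p + p + 1) := ⟨by
            conv_rhs => rw [hsp, hstep]
            exact le_of_eq (by ring), by
          calc s + w (m + 1) < s + w m := hlt2
            _ = (p + p + 1 + 1) * w (m + 1) := by
                conv_lhs => rw [hsp, hstep]
                ring⟩
        exact (bit_iff hw h1).2 ⟨p, rfl⟩
      have hsum : s + w (m + 1) + w (m + 1) ≤ w 0 := by
        rw [add_assoc, ← hstep]; exact hq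
      by_cases hcase : Sp T C w x s m
      · refine ⟨s, hs, ⟨w (m + 1), hw.le _, rfl, le_trans (le_iff_ex.2 ⟨_, rfl⟩) hsum⟩,
          ⟨p + p, ?_, w (m + 1), hw.le _, rfl, ?_⟩, fun n hn => ?_⟩
        · rw [hsp]
          have h1 : (1 : N.M) ≤ w (m + 1) := by
            have := succ_le.2 hpos
            rwa [zero_add] at this
          calc p + p = (p + p) * 1 := by ring
            _ ≤ (p + p) * w (m + 1) := mul_le_mul_of_nonneg_left h1 (nonneg' _)
            _ = p * w m := by rw [hstep]; ring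
        · conv_lhs => rw [hsp, hstep]
          ring
        · rcases lt_or_eq_of_le (lt_succ.1 hn) with h | rfl
          · exact hSp n h
          · exact hcase
      · refine ⟨s + w (m + 1), le_trans (le_iff_ex.2 ⟨_, rfl⟩) hsum,
          ⟨w (m + 1), hw.le _, rfl, hsum⟩,
          ⟨p + p + 1, ?_, w (m + 1), hw.le _, rfl, ?_⟩, fun n hn => ?_⟩
        · have h1 : (1 : N.M) ≤ w (m + 1) := by
            have := succ_le.2 hpos
            rwa [zero_add] at this
          calc p + p + 1 = (p + p + 1) * 1 := by ring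
            _ ≤ (p + p + 1) * w (m + 1) := mul_le_mul_of_nonneg_left h1 (nonneg' _)
            _ = p * w m + w (m + 1) := by rw [hstep]; ring
            _ = s + w (m + 1) := by rw [← hsp]
        · conv_lhs => rw [hsp, hstep]
          ring
        · rcases lt_or_eq_of_le (lt_succ.1 hn) with h | rfl
          · refine (sp_congr ?_ (fun n' hn' => ?_) Iff.rfl).1 (hSp n h)
            · exact ag_bit hw (ag_le hw (succ_le.2 h) hm'.le hA)
            · subst hn'
              exact ag_bit hw (ag_le hw h.le hm'.le hA)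
          · -- the bit number `n` has to be `1`
            rcases eq_zero_or_succ' n with rfl | ⟨n', rfl⟩
            · exfalso
              exact hcase ⟨fun _ => hnb, fun n' hn' _ => absurd hn' (not_lt.2 (nonneg' n'))⟩
            · have e := ag_bit hw hA
              refine ⟨fun h0 => ?_, fun n'' _ hn'' => ?_⟩
              · exfalso
                have : n' < 0 := by rw [← h0]; exact lt_succ.2 le_rfl
                exact absurd this (not_lt.2 (nonneg' n'))
              · have : n'' = n' := (add_right_cancel hn'').symm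
                subst this
                constructor
                · intro _ hiff
                  refine hcase ⟨fun h0 => ?_, fun n₃ _ hn₃ => ?_⟩
                  · exfalso
                    have : n'' < 0 := by rw [← h0]; exact lt_succ.2 le_rfl
                    exact absurd this (not_lt.2 (nonneg' n''))
                  · have : n₃ = n'' := (add_right_cancel hn₃).symm
                    subst this
                    rw [e]
                    exact ⟨fun h => absurd h hnb, fun h => absurd hiff h⟩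
                · intro _
                  exact hb
  obtain ⟨s, hs, ⟨q, _, rfl, hq⟩, _, hSp⟩ := key c le_rfl
  refine ⟨s, ?_, fun n hn _ => hSp n hn⟩
  refine lt_of_lt_of_le ?_ hq
  have := add_lt_add_r (hw.pos c) s
  rwa [zero_add, add_comm] at this

/-- The cohesiveness principle for finite sequences implies `Σ⁰₁` induction. -/
theorem isigma1_of_finiteCOH (hcoh : FiniteCOH N) : ISigma01 N := by
  intro θ v h0 hs
  by_contra hcon
  push Not at hcon
  obtain ⟨c, hc⟩ := hcon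
  obtain ⟨T, hTdef⟩ : ∃ T : N.M → N.M → Prop,
      T = fun k m => θ.Holds (cons k (cons m v)) := ⟨_, rfl⟩
  have h0' : ∃ k, T k 0 := by rw [hTdef]; exact h0
  have hs' : ∀ n, (∃ k, T k n) → ∃ k, T k (n + 1) := by rw [hTdef]; exact hs
  have hc' : ¬ ∃ k, T k c := by
    rw [hTdef]; rintro ⟨k, hk⟩; exact hc k hk
  have hT : D0 (fun v => T (v 0) (v 1)) := by
    rw [hTdef]
    exact D0.comp (R := fun u => θ.Holds u) ⟨θ, fun _ => Iff.rfl⟩
      (g := fun u => cons (u 0) (cons (u 1) v))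
      (CM.cons (Tm.var 0) (CM.cons (Tm.var 1) (fun i => Tm.const (v i))))
  clear hTdef hc h0 hs
  -- the levels
  have hwit : ∀ x n, Jx T x n → ∃ k, T k n := by
    intro x n h
    rcases eq_zero_or_succ' n with rfl | ⟨m, rfl⟩
    · exact h0'
    · obtain ⟨k, _, hk⟩ := h m (lt_succ.2 le_rfl)
      exact hs' m ⟨k, hk⟩
  have hJc : ∀ x n, c ≤ n → ¬ Jx T x n := by
    intro x n hn h
    exact hc' (hwit x c (h.anti hn))
  have hnext : ∀ x n, Jx T x n → ∃ x', Jx T x' (n + 1) := by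
    intro x n h
    obtain ⟨k, hk⟩ := hwit x n h
    refine ⟨max x k, fun m hm => ?_⟩
    rcases lt_or_eq_of_le (lt_succ.1 hm) with h1 | rfl
    · obtain ⟨k', hk', hT'⟩ := h m h1
      exact ⟨k', le_trans hk' (le_max_left _ _), hT'⟩
    · exact ⟨k, le_max_right _ _, hk⟩
  have hlev : ∀ x, ∃ n, n < c ∧ Lev T x n := by
    intro x
    obtain ⟨n, hn, h1, h2⟩ := lnp0 (P := fun n => ¬ Jx T x n)
      (d0_Jx hT (Tm.const x) (Tm.var 0)).not (hJc x c le_rfl)
    rcases eq_zero_or_succ' n with rfl | ⟨m, rfl⟩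
    · exact absurd Jx.zero h1
    · exact ⟨m, succ_le.1 hn, not_not.1 (h2 m (lt_succ.2 le_rfl)), h1⟩
  obtain ⟨w, hw⟩ := exists_pow c
  -- the cohesive set
  have hR : RelIn N (RR T c w) := by
    refine relIn_of ?_
    refine d0_bex (P := fun v n => Lev T (v 1) n ∧ Bit w (v 0) n) (Tm.const c) ?_
    exact (d0_Lev hT (Tm.var 2) (Tm.var 0)).and (d0_bit hw (Tm.var 1) (Tm.var 0))
  obtain ⟨C, hC, hCinf, hcohC⟩ := hcoh (w 0) _ hR
  have hRmem : ∀ s x, (N.pair s x ∈ {p | ∃ x y, RR T c w x y ∧ p = N.pair x y}) ↔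
      RR T c w s x := by
    intro s x
    constructor
    · rintro ⟨s', x', h, e⟩
      obtain ⟨rfl, rfl⟩ := pair_inj e
      exact h
    · intro h
      exact ⟨s, x, h, rfl⟩
  have hunb : ∀ b, ∃ x ∈ C, b ≤ x := by
    intro b
    by_contra hcon
    push Not at hcon
    exact hCinf ⟨b, fun y hy => hcon y hy⟩
  -- the set of numbers which splits the cohesive set
  obtain ⟨s, hs⟩ := nested (d0_GG (C := C) hT hC hw) (fun x x' s hx h => gg_mono hx h)
    (fun x s₁ s s₂ h1 h2 h3 h4 => gg_conv hT hw h1 h2 h3 h4) (gg_sat hT hC hw)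
    (B := w 0) (fun x s h => h.1)
  have hRR : ∀ x n, Lev T x n → (RR T c w s x ↔ Bit w s n) := by
    intro x n hx
    constructor
    · rintro ⟨m, _, hm, hb⟩
      rw [lev_unique hx hm]; exact hb
    · intro hb
      obtain ⟨m, hm, hm'⟩ := hlev x
      have := lev_unique hx hm'
      subst this
      exact ⟨n, hm, hx, hb⟩
  -- two members of `C` beyond `b` whose levels have different bits
  have hsplit : ∀ b, ∃ x ∈ C, ∃ y ∈ C, b ≤ x ∧ b ≤ y ∧ ¬ (RR T c w s x ↔ RR T c w s y) := by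
    intro b
    obtain ⟨x₁, hx₁C, hbx₁⟩ := hunb b
    obtain ⟨d, hdc, hd⟩ := hlev x₁
    obtain ⟨x', hx'⟩ := hnext x₁ d hd.1
    obtain ⟨x₂, hx₂C, hx₂⟩ := hunb x'
    have hJ2 : Jx T x₂ (d + 1) := hx'.mono hx₂
    obtain ⟨d₂, hd₂c, hd₂⟩ := hlev x₂
    have hdd₂ : d < d₂ := by
      by_contra h
      exact hd₂.2 (hJ2.anti (add_le_add_r (not_lt.1 h) 1))
    obtain ⟨d', hd'd₂, ⟨hdd', hDd'⟩, hmin⟩ := lnp0 (P := fun n => d < n ∧ Dx T C x₂ n)
      ((d0_lt (Tm.const d) (Tm.var 0)).and (d0_Dx hT hC (Tm.const x₂) (Tm.var 0)))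
      (a := d₂) ⟨hdd₂, x₂, le_rfl, hx₂C, hd₂⟩
    obtain ⟨y, hyx₂, hyC, hy⟩ := hDd'
    have hx₁y : x₁ < y := lev_lt (hy.1.anti (succ_le.2 hdd')) hd.2
    obtain ⟨x₃, hx₃⟩ := hnext y d' hy.1
    have hyx₃ : y < x₃ := lev_lt hx₃ hy.2
    have hd'c : d' < c := lt_of_le_of_lt hd'd₂ hd₂c
    obtain ⟨-, hG⟩ := hs x₃
    -- no element of `D` between `d` and `d'`
    have hnoD : ∀ n, d < n → n < d' → ¬ Dx T C x₃ n := by
      rintro n h1 h2 ⟨z, _, hzC, hz⟩
      have hJn : Jx T y (n + 1) := hy.1.anti (succ_le.2 h2)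
      exact hmin n h2 ⟨h1, z, le_trans (lev_lt hJn hz.2).le hyx₂, hzC, hz⟩
    have hconst : ∀ n, d ≤ n → n < d' → (Bit w s n ↔ Bit w s d) := by
      intro n
      refine ind0 (P := fun n => d ≤ n → n < d' → (Bit w s n ↔ Bit w s d)) ?_ ?_ ?_ n
      · exact (d0_le (Tm.const d) (Tm.var 0)).imp ((d0_lt (Tm.var 0) (Tm.const d')).imp
          ((d0_bit hw (Tm.const s) (Tm.var 0)).iff (d0_bit hw (Tm.const s) (Tm.const d))))
      · intro h1 _
        rw [le_antisymm h1 (nonneg' d)]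
      · intro n ih h1 h2
        rcases lt_or_eq_of_le h1 with h3 | h3
        · have h4 := lt_succ.1 h3
          have h5 : n < d' := lt_trans (lt_succ.2 le_rfl) h2
          have hSp := (hG (n + 1) (lt_trans h2 hd'c) (hx₃.anti (add_le_add_r h2.le 1))).2 n
            (lt_succ.2 le_rfl) rfl
          have hno := hnoD (n + 1) h3 h2
          rw [hSp, ← ih h4 h5]
          tauto
        · rw [h3]
    have hflip : ¬ (Bit w s d' ↔ Bit w s d) := by
      rcases eq_zero_or_succ' d' with h | ⟨n', h⟩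
      · rw [h] at hdd'
        exact absurd hdd' (not_lt.2 (nonneg' d))
      · have h1 : n' < d' := by rw [h]; exact lt_succ.2 le_rfl
        have h2 : d ≤ n' := by rw [h] at hdd'; exact lt_succ.1 hdd'
        have hSp := (hG d' hd'c hx₃).2 n' h1 h
        have hD : Dx T C x₃ d' := ⟨y, hyx₃.le, hyC, hy⟩
        rw [hSp, ← hconst n' h2 h1]
        tauto
    refine ⟨x₁, hx₁C, y, hyC, hbx₁, le_trans hbx₁ hx₁y.le, ?_⟩
    rw [hRR x₁ d hd, hRR y d' hy]
    tauto
  rcases hcohC s (hs 0).1 with ⟨b, hb⟩ | ⟨b, hb⟩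
  · obtain ⟨x, hx, y, hy, hbx, hby, hne⟩ := hsplit b
    have h1 : ¬ RR T c w s x := fun h =>
      absurd (show x < b from hb x ⟨hx, (hRmem s x).2 h⟩) (not_lt.2 hbx)
    have h2 : ¬ RR T c w s y := fun h =>
      absurd (show y < b from hb y ⟨hy, (hRmem s y).2 h⟩) (not_lt.2 hby)
    exact hne ⟨fun h => absurd h h1, fun h => absurd h h2⟩
  · obtain ⟨x, hx, y, hy, hbx, hby, hne⟩ := hsplit b
    have h1 : RR T c w s x := by
      by_contra h
      exact absurd (show x < b from hb x ⟨hx, fun h' => h ((hRmem s x).1 h')⟩) (not_lt.2 hbx)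
    have h2 : RR T c w s y := by
      by_contra h
      exact absurd (show y < b from hb y ⟨hy, fun h' => h ((hRmem s y).1 h')⟩) (not_lt.2 hby)
    exact hne ⟨fun _ => h2, fun _ => h1⟩

theorem finiteCOH_of_coh {N : L2Structure.{u}} (h : Pool.Agent.Helper617.CR.COH N) :
    FiniteCOH N := fun a R hR => by
  obtain ⟨C, hC, h1, h2⟩ := h R hR
  exact ⟨C, hC, h1, fun i _ => h2 i⟩

end Pool.Agent.TH748.COH
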