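import Mathlib
import Pool.Agent.TH748.COH.Defs

/-!
A model of `RCA*₀` in which `Σ⁰₁` induction fails: the elements of an ultrapower of the natural
numbers which are below one of the iterated powers of two of the nonstandard number `i ↦ i`, with
the traces of the internal sets.
-/

namespace Pool.Agent.TH748.COH

open Pool.Agent.Helper617.RM Filter

noncomputable def UU : Ultrafilter ℕ := hyperfilter ℕ

/-- iterated powers of two: `tow 0 i = i`, `tow (m + 1) i = 2 ^ tow m i` -/
def tow : ℕ → ℕ → ℕ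
  | 0, i => i
  | m + 1, i => 2 ^ tow m i

theorem tow_lt (m i : ℕ) : tow m i < tow (m + 1) i := Nat.lt_two_pow_self

theorem tow_mono {m n : ℕ} (h : m ≤ n) (i : ℕ) : tow m i ≤ tow n i := by
  induction h with
  | refl => exact le_rfl
  | step h ih => exact ih.trans (tow_lt _ i).le

def InM (x : ℕ → ℕ) : Prop := ∃ m, ∀ᶠ i in (UU : Filter ℕ), x i < tow m i

theorem InM.mono {x y : ℕ → ℕ} (hx : InM x) (h : ∀ᶠ i in (UU : Filter ℕ), y i ≤ x i) : InM y := by
  obtain ⟨m, hm⟩ := hx
  refine ⟨m, ?_⟩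
  filter_upwards [hm, h] with i h1 h2 using h2.trans_lt h1

theorem InM.both {x y : ℕ → ℕ} (hx : InM x) (hy : InM y) :
    ∃ m, ∀ᶠ i in (UU : Filter ℕ), x i < tow m i ∧ y i < tow m i := by
  obtain ⟨m, hm⟩ := hx
  obtain ⟨n, hn⟩ := hy
  refine ⟨max m n, ?_⟩
  filter_upwards [hm, hn] with i h1 h2
  exact ⟨h1.trans_le (tow_mono (le_max_left _ _) i), h2.trans_le (tow_mono (le_max_right _ _) i)⟩

theorem two_mul_le {t : ℕ} (h : 0 < t) : t + t ≤ 2 ^ t := by
  induction t with
  | zero => omega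
  | succ t ih =>
    rcases Nat.eq_zero_or_pos t with rfl | h'
    · simp
    · have := ih h'
      rw [pow_succ]
      omega

theorem InM.pow {x : ℕ → ℕ} (hx : InM x) : InM fun i => 2 ^ x i := by
  obtain ⟨m, hm⟩ := hx
  refine ⟨m + 1, ?_⟩
  filter_upwards [hm] with i h
  exact Nat.pow_lt_pow_right (by norm_num) h

theorem InM.add {x y : ℕ → ℕ} (hx : InM x) (hy : InM y) : InM fun i => x i + y i := by
  obtain ⟨m, hm⟩ := hx.both hy
  refine ⟨m + 1, ?_⟩
  filter_upwards [hm] with i h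
  have h1 := two_mul_le (t := tow m i) (by omega)
  show x i + y i < 2 ^ tow m i
  omega

theorem InM.mul {x y : ℕ → ℕ} (hx : InM x) (hy : InM y) : InM fun i => x i * y i := by
  refine ((hx.add hy).pow).mono (Eventually.of_forall fun i => ?_)
  show x i * y i ≤ 2 ^ (x i + y i)
  rw [pow_add]
  exact Nat.mul_le_mul Nat.lt_two_pow_self.le Nat.lt_two_pow_self.le

theorem InM.id : InM fun i => i := ⟨1, Eventually.of_forall fun i => tow_lt 0 i⟩

theorem InM.const (a : ℕ) : InM fun _ => a := by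
  have h : ∀ᶠ i in (UU : Filter ℕ), a ≤ i := by
    have : ∀ᶠ i in cofinite, a ≤ i := by
      rw [Nat.cofinite_eq_atTop]; exact eventually_ge_atTop a
    exact Filter.hyperfilter_le_cofinite this
  exact InM.id.mono h

theorem ev_ge (a : ℕ) : ∀ᶠ i in (UU : Filter ℕ), a ≤ i := by
  have : ∀ᶠ i in cofinite, a ≤ i := by
    rw [Nat.cofinite_eq_atTop]; exact eventually_ge_atTop a
  exact Filter.hyperfilter_le_cofinite this

/-! ### the numbers -/

def IM : Type := {x : ℕ → ℕ // InM x}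

instance imSetoid : Setoid IM where
  r x y := ∀ᶠ i in (UU : Filter ℕ), x.1 i = y.1 i
  iseqv := by
    refine ⟨fun x => by simp, fun h => ?_, fun h h' => ?_⟩
    · filter_upwards [h] with i hi using hi.symm
    · filter_upwards [h, h'] with i hi hi' using hi.trans hi'

def MM : Type := Quotient imSetoid

noncomputable def rep (x : MM) : ℕ → ℕ := (Quotient.out x).1

theorem rep_inM (x : MM) : InM (rep x) := (Quotient.out x).2

noncomputable def mk (x : ℕ → ℕ) (h : InM x) : MM := Quotient.mk _ ⟨x, h⟩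

theorem rep_mk {x : ℕ → ℕ} (h : InM x) : ∀ᶠ i in (UU : Filter ℕ), rep (mk x h) i = x i := by
  have h1 : imSetoid.r (Quotient.out (Quotient.mk imSetoid (⟨x, h⟩ : IM))) (⟨x, h⟩ : IM) :=
    Quotient.exact (Quotient.out_eq _)
  exact h1

theorem mm_ext {x y : MM} : x = y ↔ ∀ᶠ i in (UU : Filter ℕ), rep x i = rep y i := by
  constructor
  · rintro rfl; simp
  · intro h
    rw [← Quotient.out_eq x, ← Quotient.out_eq y]
    exact Quotient.sound h

theorem mm_ext' {x y : MM} (h : ∀ᶠ i in (UU : Filter ℕ), rep x i = rep y i) : x = y :=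
  mm_ext.2 h

theorem ev_not {P : ℕ → Prop} : (∀ᶠ i in (UU : Filter ℕ), ¬ P i) ↔
    ¬ ∀ᶠ i in (UU : Filter ℕ), P i :=
  Ultrafilter.eventually_not

theorem ev_or {P Q : ℕ → Prop} : (∀ᶠ i in (UU : Filter ℕ), (P i ∨ Q i)) ↔
    (∀ᶠ i in (UU : Filter ℕ), P i) ∨ ∀ᶠ i in (UU : Filter ℕ), Q i :=
  Ultrafilter.eventually_or

theorem ev_false {P : ℕ → Prop} (h : ∀ᶠ i in (UU : Filter ℕ), P i) (h' : ∀ i, ¬ P i) :
    False := by
  obtain ⟨i, hi⟩ := h.exists
  exact h' i hi

/-! ### the structure -/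

/-- the trace of the internal set given by `A` -/
def trace (A : ℕ → Set ℕ) : Set MM := {x | ∀ᶠ i in (UU : Filter ℕ), rep x i ∈ A i}

@[reducible] noncomputable def NN : L2Structure.{0} where
  M := MM
  zero := mk (fun _ => 0) (InM.const 0)
  one := mk (fun _ => 1) (InM.const 1)
  add x y := mk (fun i => rep x i + rep y i) ((rep_inM x).add (rep_inM y))
  mul x y := mk (fun i => rep x i * rep y i) ((rep_inM x).mul (rep_inM y))
  lt x y := ∀ᶠ i in (UU : Filter ℕ), rep x i < rep y i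
  Sets := {X | ∃ A : ℕ → Set ℕ, X = trace A}

theorem rep_zero : ∀ᶠ i in (UU : Filter ℕ), rep NN.zero i = 0 := rep_mk _
theorem rep_one : ∀ᶠ i in (UU : Filter ℕ), rep NN.one i = 1 := rep_mk _
theorem rep_add (x y : NN.M) :
    ∀ᶠ i in (UU : Filter ℕ), rep (NN.add x y) i = rep x i + rep y i :=
  rep_mk ((rep_inM x).add (rep_inM y))
theorem rep_mul (x y : NN.M) :
    ∀ᶠ i in (UU : Filter ℕ), rep (NN.mul x y) i = rep x i * rep y i :=
  rep_mk ((rep_inM x).mul (rep_inM y))
theorem lt_iff (x y : NN.M) : NN.lt x y ↔ ∀ᶠ i in (UU : Filter ℕ), rep x i < rep y i := Iff.rfl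

theorem term_los (τ : Term NN) : ∃ f : ℕ → (ℕ → ℕ) → ℕ, ∀ v : ℕ → NN.M,
    ∀ᶠ i in (UU : Filter ℕ), rep (τ.val v) i = f i (fun k => rep (v k) i) := by
  induction τ with
  | var k => exact ⟨fun _ r => r k, fun v => Eventually.of_forall fun i => rfl⟩
  | const a => exact ⟨fun i _ => rep a i, fun v => Eventually.of_forall fun i => rfl⟩
  | zero => exact ⟨fun _ _ => 0, fun v => rep_zero⟩
  | one => exact ⟨fun _ _ => 1, fun v => rep_one⟩
  | add s t hs ht =>
    obtain ⟨f, hf⟩ := hs
    obtain ⟨g, hg⟩ := ht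
    refine ⟨fun i r => f i r + g i r, fun v => ?_⟩
    filter_upwards [hf v, hg v, rep_add (s.val v) (t.val v)] with i h1 h2 h3
    rw [← h1, ← h2]
    exact h3
  | mul s t hs ht =>
    obtain ⟨f, hf⟩ := hs
    obtain ⟨g, hg⟩ := ht
    refine ⟨fun i r => f i r * g i r, fun v => ?_⟩
    filter_upwards [hf v, hg v, rep_mul (s.val v) (t.val v)] with i h1 h2 h3
    rw [← h1, ← h2]
    exact h3

theorem rep_cons (a : NN.M) (v : ℕ → NN.M) (i : ℕ) :
    (fun k => rep (cons a v k) i) = cons (rep a i) (fun k => rep (v k) i) := by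
  funext k
  cases k <;> rfl

theorem ev_iff_congr {P Q R : ℕ → Prop} {p : Prop} (h : p ↔ ∀ᶠ i in (UU : Filter ℕ), P i)
    (h' : ∀ᶠ i in (UU : Filter ℕ), (P i ↔ Q i)) : p ↔ ∀ᶠ i in (UU : Filter ℕ), Q i :=
  h.trans (eventually_congr h')

/-- Łoś's theorem for `Δ⁰₀` formulas -/
theorem delta_los (θ : Delta0 NN) : ∃ P : ℕ → (ℕ → ℕ) → Prop, ∀ v : ℕ → NN.M,
    (θ.Holds v ↔ ∀ᶠ i in (UU : Filter ℕ), P i (fun k => rep (v k) i)) := by
  induction θ with
  | eq s t =>
    obtain ⟨f, hf⟩ := term_los s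
    obtain ⟨g, hg⟩ := term_los t
    refine ⟨fun i r => f i r = g i r, fun v => ?_⟩
    refine (mm_ext (x := s.val v) (y := t.val v)).trans (eventually_congr ?_)
    filter_upwards [hf v, hg v] with i h1 h2
    rw [h1, h2]
  | lt s t =>
    obtain ⟨f, hf⟩ := term_los s
    obtain ⟨g, hg⟩ := term_los t
    refine ⟨fun i r => f i r < g i r, fun v => ?_⟩
    refine (lt_iff (s.val v) (t.val v)).trans (eventually_congr ?_)
    filter_upwards [hf v, hg v] with i h1 h2
    rw [h1, h2]
  | mem t X =>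
    obtain ⟨f, hf⟩ := term_los t
    obtain ⟨X, A, rfl⟩ := X
    refine ⟨fun i r => f i r ∈ A i, fun v => ?_⟩
    show t.val v ∈ trace A ↔ _
    refine eventually_congr ?_
    filter_upwards [hf v] with i h1
    rw [h1]
  | neg φ ih =>
    obtain ⟨P, hP⟩ := ih
    refine ⟨fun i r => ¬ P i r, fun v => ?_⟩
    rw [ev_not, ← hP]
    rfl
  | and φ ψ h1 h2 =>
    obtain ⟨P, hP⟩ := h1
    obtain ⟨Q, hQ⟩ := h2
    refine ⟨fun i r => P i r ∧ Q i r, fun v => ?_⟩
    rw [eventually_and, ← hP, ← hQ]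
    rfl
  | ball t φ ih =>
    obtain ⟨f, hf⟩ := term_los t
    obtain ⟨P, hP⟩ := ih
    refine ⟨fun i r => ∀ x, x < f i r → P i (cons x r), fun v => ?_⟩
    show (∀ a, NN.lt a (t.val v) → φ.Holds (cons a v)) ↔ _
    constructor
    · intro h
      by_contra hcon
      rw [← ev_not] at hcon
      have h1 : ∀ᶠ i in (UU : Filter ℕ), ∃ x, x < rep (t.val v) i ∧
          ¬ P i (cons x (fun k => rep (v k) i)) := by
        filter_upwards [hcon, hf v] with i e1 e2
        push Not at e1
        rw [e2]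
        exact e1
      obtain ⟨x, hx⟩ := h1.choice
      have hxM : InM x := (rep_inM (t.val v)).mono (by
        filter_upwards [hx] with i hi using hi.1.le)
      have h2 : NN.lt (mk x hxM) (t.val v) := by
        refine (lt_iff _ _).2 ?_
        filter_upwards [hx, rep_mk hxM] with i e1 e2
        rw [e2]; exact e1.1
      have h3 := (hP _).1 (h _ h2)
      refine ev_false (h3.and (hx.and (rep_mk hxM))) ?_
      rintro i ⟨e1, e2, e3⟩
      rw [rep_cons, e3] at e1
      exact e2.2 e1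
    · intro h a ha
      rw [hP]
      filter_upwards [h, (lt_iff _ _).1 ha, hf v] with i e1 e2 e3
      rw [rep_cons]
      exact e1 _ (by rw [← e3]; exact e2)

theorem pair_rep (x y : NN.M) : ∀ᶠ i in (UU : Filter ℕ),
    rep (NN.pair x y) i = (rep x i + rep y i) * (rep x i + rep y i) + rep x i := by
  filter_upwards [rep_add x y, rep_mul (NN.add x y) (NN.add x y),
    rep_add (NN.mul (NN.add x y) (NN.add x y)) x] with i h1 h2 h3
  have : rep (NN.pair x y) i = rep (NN.mul (NN.add x y) (NN.add x y)) i + rep x i := h3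
  rw [this, h2, h1]

theorem nat_pair_inj {a b c d : ℕ} (h : (a + b) * (a + b) + a = (c + d) * (c + d) + c) :
    a = c ∧ b = d := by
  have key : ∀ a b c d : ℕ, (a + b) * (a + b) + a = (c + d) * (c + d) + c → ¬ a + b < c + d := by
    intro a b c d h hlt
    have h1 : (a + b + 1) * (a + b + 1) ≤ (c + d) * (c + d) := Nat.mul_le_mul hlt hlt
    nlinarith
  have h1 := key a b c d h
  have h2 := key c d a b h.symm
  have h3 : a + b = c + d := by omega
  rw [h3] at h
  omega

noncomputable def expN (x : NN.M) : NN.M := mk (fun i => 2 ^ rep x i) (rep_inM x).pow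

theorem rep_exp (x : NN.M) : ∀ᶠ i in (UU : Filter ℕ), rep (expN x) i = 2 ^ rep x i :=
  rep_mk (rep_inM x).pow

theorem trace_graph (g : ℕ → ℕ → ℕ) (G : NN.M → NN.M)
    (hG : ∀ x, ∀ᶠ i in (UU : Filter ℕ), rep (G x) i = g i (rep x i)) :
    {p | ∃ x y, y = G x ∧ p = NN.pair x y} =
      trace (fun i => {q | ∃ a, q = (a + g i a) * (a + g i a) + a}) := by
  ext p
  constructor
  · rintro ⟨x, y, rfl, rfl⟩
    show ∀ᶠ i in (UU : Filter ℕ), _
    filter_upwards [pair_rep x (G x), hG x] with i h1 h2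
    exact ⟨rep x i, by rw [h1, h2]⟩
  · intro h
    have h : ∀ᶠ i in (UU : Filter ℕ), ∃ a, rep p i = (a + g i a) * (a + g i a) + a := h
    obtain ⟨a, ha⟩ := h.choice
    have haM : InM a := (rep_inM p).mono (by
      filter_upwards [ha] with i hi
      rw [hi]; exact Nat.le_add_left _ _)
    refine ⟨mk a haM, G (mk a haM), rfl, mm_ext' ?_⟩
    filter_upwards [ha, pair_rep (mk a haM) (G (mk a haM)), hG (mk a haM), rep_mk haM]
      with i h1 h2 h3 h4
    rw [h1, h2, h3, h4]

theorem nn_induction (P : ℕ → ℕ → Prop)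
    (h0 : ∀ᶠ i in (UU : Filter ℕ), P i (rep NN.zero i))
    (hs : ∀ n : NN.M, (∀ᶠ i in (UU : Filter ℕ), P i (rep n i)) →
      ∀ᶠ i in (UU : Filter ℕ), P i (rep (NN.add n NN.one) i)) (n : NN.M) :
    ∀ᶠ i in (UU : Filter ℕ), P i (rep n i) := by
  classical
  by_contra hcon
  rw [← ev_not] at hcon
  have h1 : ∀ᶠ i in (UU : Filter ℕ), ∃ m, m ≤ rep n i ∧ ¬ P i m ∧ ∀ k, k < m → P i k := by
    filter_upwards [hcon] with i hi
    have hex : ∃ m, ¬ P i m := ⟨_, hi⟩
    refine ⟨Nat.find hex, Nat.find_min' hex hi, Nat.find_spec hex, fun k hk => ?_⟩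
    exact not_not.1 (Nat.find_min hex hk)
  obtain ⟨m, hm⟩ := h1.choice
  have hmM : InM m := (rep_inM n).mono (by filter_upwards [hm] with i hi using hi.1)
  have hmM' : InM fun i => m i - 1 := hmM.mono (Eventually.of_forall fun i => Nat.sub_le _ _)
  have hne : ∀ᶠ i in (UU : Filter ℕ), m i ≠ 0 := by
    filter_upwards [hm, h0, rep_zero] with i h1 h2 h3 h4
    rw [h3] at h2
    rw [h4] at h1
    exact h1.2.1 h2
  have h2 := hs (mk _ hmM') (by
    filter_upwards [hm, hne, rep_mk hmM'] with i h1 h2 h3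
    rw [h3]
    exact h1.2.2 _ (by omega))
  refine ev_false (h2.and (hm.and (hne.and ((rep_mk hmM').and
    ((rep_add (mk _ hmM') NN.one).and rep_one))))) ?_
  rintro i ⟨e1, e2, e3, e4, e5, e6⟩
  rw [e5, e4, e6, Nat.sub_add_cancel (by omega)] at e1
  exact e2.2.1 e1

instance nn_model : IsModelRCA0star NN where
  ax_add_assoc a b c := mm_ext' (by
    filter_upwards [rep_add (NN.add a b) c, rep_add a b, rep_add a (NN.add b c), rep_add b c]
      with i h1 h2 h3 h4
    rw [h1, h2, h3, h4, add_assoc])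
  ax_add_comm a b := mm_ext' (by
    filter_upwards [rep_add a b, rep_add b a] with i h1 h2
    rw [h1, h2, add_comm])
  ax_add_zero a := mm_ext' (by
    filter_upwards [rep_add a NN.zero, rep_zero] with i h1 h2
    rw [h1, h2, add_zero])
  ax_mul_assoc a b c := mm_ext' (by
    filter_upwards [rep_mul (NN.mul a b) c, rep_mul a b, rep_mul a (NN.mul b c), rep_mul b c]
      with i h1 h2 h3 h4
    rw [h1, h2, h3, h4, mul_assoc])
  ax_mul_comm a b := mm_ext' (by
    filter_upwards [rep_mul a b, rep_mul b a] with i h1 h2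
    rw [h1, h2, mul_comm])
  ax_mul_zero a := mm_ext' (by
    filter_upwards [rep_mul a NN.zero, rep_zero] with i h1 h2
    rw [h1, h2, mul_zero])
  ax_mul_one a := mm_ext' (by
    filter_upwards [rep_mul a NN.one, rep_one] with i h1 h2
    rw [h1, h2, mul_one])
  ax_mul_add a b c := mm_ext' (by
    filter_upwards [rep_mul a (NN.add b c), rep_add b c, rep_add (NN.mul a b) (NN.mul a c),
      rep_mul a b, rep_mul a c] with i h1 h2 h3 h4 h5
    rw [h1, h2, h3, h4, h5, mul_add])
  ax_lt_irrefl a h := ev_false h fun i => lt_irrefl _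
  ax_lt_trans a b c h1 h2 := by
    filter_upwards [h1, h2] with i h1 h2 using h1.trans h2
  ax_lt_total a b := by
    have h : ∀ᶠ i in (UU : Filter ℕ), (rep a i < rep b i ∨ (rep a i = rep b i ∨
        rep b i < rep a i)) := Eventually.of_forall fun i => lt_trichotomy _ _
    rw [ev_or, ev_or] at h
    rcases h with h | h | h
    · exact Or.inl h
    · exact Or.inr (Or.inl (mm_ext' h))
    · exact Or.inr (Or.inr h)
  ax_add_lt_add a b c h := by
    rw [lt_iff] at h ⊢
    filter_upwards [h, rep_add a c, rep_add b c] with i h1 h2 h3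
    rw [h2, h3]; omega
  ax_mul_lt_mul a b c h0 h := by
    rw [lt_iff] at h h0 ⊢
    filter_upwards [h, h0, rep_zero, rep_mul a c, rep_mul b c] with i h1 h2 h3 h4 h5
    rw [h4, h5]
    rw [h3] at h2
    exact Nat.mul_lt_mul_of_pos_right h1 h2
  ax_sub a b h := by
    rw [lt_iff] at h
    have hM : InM fun i => rep b i - rep a i :=
      (rep_inM b).mono (Eventually.of_forall fun i => Nat.sub_le _ _)
    refine ⟨mk _ hM, mm_ext' ?_⟩
    filter_upwards [h, rep_add a (mk _ hM), rep_mk hM] with i h1 h2 h3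
    rw [h2, h3]; omega
  ax_zero_lt_one := by
    rw [lt_iff]
    filter_upwards [rep_zero, rep_one] with i h1 h2
    rw [h1, h2]; norm_num
  ax_discrete a h := by
    rw [lt_iff] at h
    have h' : ∀ᶠ i in (UU : Filter ℕ), (rep a i = rep NN.one i ∨ rep NN.one i < rep a i) := by
      filter_upwards [h, rep_zero, rep_one] with i h1 h2 h3
      rw [h3]; rw [h2] at h1; omega
    rw [ev_or] at h'
    rcases h' with h' | h'
    · exact Or.inl (mm_ext' h')
    · exact Or.inr h'
  ax_nonneg a := by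
    have h' : ∀ᶠ i in (UU : Filter ℕ), (rep a i = rep NN.zero i ∨ rep NN.zero i < rep a i) := by
      filter_upwards [rep_zero] with i h2
      rw [h2]; omega
    rw [ev_or] at h'
    rcases h' with h' | h'
    · exact Or.inl (mm_ext' h')
    · exact Or.inr h'
  ax_exp := by
    refine ⟨expN, ?_, ?_, ?_⟩
    · exact ⟨_, trace_graph (fun _ a => 2 ^ a) expN rep_exp⟩
    · refine mm_ext' ?_
      filter_upwards [rep_exp NN.zero, rep_zero, rep_one] with i h1 h2 h3
      rw [h1, h2, h3]; norm_num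
    · intro k
      refine mm_ext' ?_
      filter_upwards [rep_exp (NN.add k NN.one), rep_add k NN.one, rep_one,
        rep_add (expN k) (expN k), rep_exp k] with i h1 h2 h3 h4 h5
      rw [h1, h2, h3, h4, h5, pow_succ]; ring
  sigma0_induction θ v h0 hs n := by
    obtain ⟨P, hP⟩ := delta_los θ
    rw [hP]
    have e : ∀ n : NN.M, θ.Holds (cons n v) ↔
        ∀ᶠ i in (UU : Filter ℕ), P i (cons (rep n i) (fun k => rep (v k) i)) := by
      intro n
      rw [hP]
      simp only [rep_cons]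
    rw [← hP, e]
    refine nn_induction (fun i m => P i (cons m (fun k => rep (v k) i))) ?_ ?_ n
    · exact (e _).1 h0
    · intro m hm
      exact (e _).1 (hs m ((e _).2 hm))
  delta1_comprehension θ ψ v h := by
    obtain ⟨P, hP⟩ := delta_los θ
    obtain ⟨Q, hQ⟩ := delta_los ψ
    have eP : ∀ k n : NN.M, θ.Holds (cons k (cons n v)) ↔ ∀ᶠ i in (UU : Filter ℕ),
        P i (cons (rep k i) (cons (rep n i) (fun k => rep (v k) i))) := by
      intro k n
      rw [hP]
      simp only [rep_cons]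
    have eQ : ∀ k n : NN.M, ψ.Holds (cons k (cons n v)) ↔ ∀ᶠ i in (UU : Filter ℕ),
        Q i (cons (rep k i) (cons (rep n i) (fun k => rep (v k) i))) := by
      intro k n
      rw [hQ]
      simp only [rep_cons]
    refine ⟨fun i => {m | ∃ k, P i (cons k (cons m (fun k => rep (v k) i))) ∧
      ∀ k', k' < k → Q i (cons k' (cons m (fun k => rep (v k) i)))}, ?_⟩
    ext n
    constructor
    · rintro ⟨k, hk⟩
      have hall := (h n).1 ⟨k, hk⟩
      have h1 : ∀ᶠ i in (UU : Filter ℕ), ∀ k', k' < rep k i →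
          Q i (cons k' (cons (rep n i) (fun k => rep (v k) i))) := by
        by_contra hcon
        rw [← ev_not] at hcon
        have h2 : ∀ᶠ i in (UU : Filter ℕ), ∃ k', k' < rep k i ∧
            ¬ Q i (cons k' (cons (rep n i) (fun k => rep (v k) i))) := by
          filter_upwards [hcon] with i hi
          push Not at hi
          exact hi
        obtain ⟨k', hk'⟩ := h2.choice
        have hM : InM k' := (rep_inM k).mono (by
          filter_upwards [hk'] with i hi using hi.1.le)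
        have h3 := (eQ _ _).1 (hall (mk k' hM))
        refine ev_false (h3.and (hk'.and (rep_mk hM))) ?_
        rintro i ⟨e1, e2, e3⟩
        rw [e3] at e1
        exact e2.2 e1
      show ∀ᶠ i in (UU : Filter ℕ), _
      filter_upwards [h1, (eP _ _).1 hk] with i e1 e2
      exact ⟨rep k i, e2, e1⟩
    · intro hn
      have hn : ∀ᶠ i in (UU : Filter ℕ), ∃ k,
          P i (cons k (cons (rep n i) (fun k => rep (v k) i))) ∧
          ∀ k', k' < k → Q i (cons k' (cons (rep n i) (fun k => rep (v k) i))) := hn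
      by_contra hcon
      have h1 : ∃ k₀ : NN.M, ¬ ψ.Holds (cons k₀ (cons n v)) := by
        by_contra h2
        push Not at h2
        exact hcon ((h n).2 h2)
      obtain ⟨k₀, hk₀⟩ := h1
      rw [eQ, ← ev_not] at hk₀
      obtain ⟨k, hk⟩ := hn.choice
      have hM : InM k := (rep_inM k₀).mono (by
        filter_upwards [hk, hk₀] with i e1 e2
        by_contra e3
        exact e2 (e1.2 _ (not_le.1 e3)))
      refine hcon ⟨mk k hM, (eP _ _).2 ?_⟩
      filter_upwards [hk, rep_mk hM] with i e1 e2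
      rw [e2]
      exact e1.1

/-! ### failure of `Σ⁰₁` induction -/

def pairT (s t : LTerm) : LTerm := .add (.mul (.add s t) (.add s t)) s

/-- the arithmetical formula whose `Π¹₁` closure is the instance of `Σ⁰₁` induction for the
formula `∃ k, (k, n) ∈ X`: if `∃ k, (k, 0) ∈ X` and
`∀ n, (∃ k, (k, n) ∈ X) → ∃ k, (k, n + 1) ∈ X`, then `∀ n, ∃ k, (k, n) ∈ X` -/
def indForm : Arith :=
  .neg (.and
    (.and (.neg (.all (.neg (.mem (pairT (.var 0) .zero) 0))))
      (.all (.neg (.and (.neg (.all (.neg (.mem (pairT (.var 0) (.var 1)) 0))))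
        (.neg (.neg (.all (.neg (.mem (pairT (.var 0) (.add (.var 1) .one)) 0)))))))))
    (.neg (.all (.neg (.all (.neg (.mem (pairT (.var 0) (.var 1)) 0)))))))

theorem indForm_holds (N : L2Structure.{0}) (X : ℕ → Set N.M) (v : ℕ → N.M) :
    indForm.Holds N X v ↔ ((∃ k, N.pair k N.zero ∈ X 0) →
      (∀ n, (∃ k, N.pair k n ∈ X 0) → ∃ k, N.pair k (N.add n N.one) ∈ X 0) →
      ∀ n, ∃ k, N.pair k n ∈ X 0) := by
  have h : indForm.Holds N X v ↔ ¬ (((¬ ∀ k, ¬ N.pair k N.zero ∈ X 0) ∧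
      ∀ n, ¬ ((¬ ∀ k, ¬ N.pair k n ∈ X 0) ∧ ¬ ¬ ∀ k, ¬ N.pair k (N.add n N.one) ∈ X 0)) ∧
      ¬ ∀ n, ¬ ∀ k, ¬ N.pair k n ∈ X 0) := Iff.rfl
  rw [h]
  have e : ∀ P : N.M → Prop, (¬ ∀ k, ¬ P k) ↔ ∃ k, P k := fun P => by
    rw [not_forall]; simp only [not_not]
  simp only [e]
  constructor
  · intro h1 h2 h3 n
    by_contra hcon
    exact h1 ⟨⟨h2, fun n hn => hn.2 (h3 n hn.1)⟩, fun h => hcon (h n)⟩
  · rintro h1 ⟨⟨h2, h3⟩, h4⟩
    refine h4 (h1 h2 fun n hn => ?_)
    by_contra hcon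
    exact h3 n ⟨hn, hcon⟩

theorem indForm_of_isigma (N : L2Structure.{0}) (h : ISigma01 N) : Pi11True N indForm := by
  intro X hX v
  rw [indForm_holds]
  intro h0 hs
  exact h (.mem (.add (.mul (.add (.var 0) (.var 1)) (.add (.var 0) (.var 1))) (.var 0))
    ⟨X 0, hX 0⟩) v h0 hs

theorem not_pi11True : ¬ Pi11True NN indForm := by
  intro h
  have hgraph : {p | ∃ k n : NN.M, (∀ᶠ i in (UU : Filter ℕ), rep k i = tow (rep n i) i) ∧
      p = NN.pair k n} = trace (fun i => {q | ∃ n, q = (tow n i + n) * (tow n i + n) +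
        tow n i}) := by
    ext p
    constructor
    · rintro ⟨k, n, hk, rfl⟩
      show ∀ᶠ i in (UU : Filter ℕ), _
      filter_upwards [pair_rep k n, hk] with i h1 h2
      exact ⟨rep n i, by rw [h1, h2]⟩
    · intro h
      have h : ∀ᶠ i in (UU : Filter ℕ), ∃ n, rep p i =
        (tow n i + n) * (tow n i + n) + tow n i := h
      obtain ⟨n, hn⟩ := h.choice
      have hkM : InM fun i => tow (n i) i := (rep_inM p).mono (by
        filter_upwards [hn] with i hi
        rw [hi]; exact Nat.le_add_left _ _)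
      have hnM : InM n := (rep_inM p).mono (by
        filter_upwards [hn] with i hi
        rw [hi]
        calc n i ≤ tow (n i) i + n i := Nat.le_add_left _ _
          _ ≤ (tow (n i) i + n i) * (tow (n i) i + n i) := Nat.le_mul_self _
          _ ≤ _ := Nat.le_add_right _ _)
      refine ⟨mk _ hkM, mk n hnM, ?_, mm_ext' ?_⟩
      · filter_upwards [rep_mk hkM, rep_mk hnM] with i h1 h2
        rw [h1, h2]
      · filter_upwards [hn, pair_rep (mk _ hkM) (mk n hnM), rep_mk hkM, rep_mk hnM]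
          with i h1 h2 h3 h4
        rw [h1, h2, h3, h4]
  have hmem : ∀ k n : NN.M, NN.pair k n ∈ {p | ∃ k n : NN.M,
      (∀ᶠ i in (UU : Filter ℕ), rep k i = tow (rep n i) i) ∧ p = NN.pair k n} ↔
      ∀ᶠ i in (UU : Filter ℕ), rep k i = tow (rep n i) i := by
    intro k n
    constructor
    · rintro ⟨k', n', h1, h2⟩
      rw [mm_ext] at h2
      filter_upwards [h1, h2, pair_rep k n, pair_rep k' n'] with i e1 e2 e3 e4
      rw [e3, e4] at e2
      obtain ⟨e5, e6⟩ := nat_pair_inj e2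
      rw [e5, e6, e1]
    · intro h
      exact ⟨k, n, h, rfl⟩
  have h1 := h (fun _ => {p | ∃ k n : NN.M,
      (∀ᶠ i in (UU : Filter ℕ), rep k i = tow (rep n i) i) ∧ p = NN.pair k n})
    (fun _ => ⟨_, hgraph⟩) (fun _ => NN.zero)
  rw [indForm_holds] at h1
  simp only [hmem] at h1
  have h2 := h1 ⟨mk (fun i => i) InM.id, by
    filter_upwards [rep_mk InM.id, rep_zero] with i e1 e2
    rw [e1, e2]; rfl⟩ (by
    rintro n ⟨k, hk⟩
    refine ⟨expN k, ?_⟩
    filter_upwards [hk, rep_exp k, rep_add n NN.one, rep_one] with i e1 e2 e3 e4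
    rw [e2, e3, e4, e1]; rfl) (mk (fun i => i) InM.id)
  obtain ⟨k, hk⟩ := h2
  obtain ⟨m, hm⟩ := rep_inM k
  refine ev_false (hk.and (hm.and ((rep_mk InM.id).and (ev_ge m)))) ?_
  rintro i ⟨e1, e2, e3, e4⟩
  rw [e1, e3] at e2
  exact absurd e2 (not_lt.2 (tow_mono e4 i))

end Pool.Agent.TH748.COH
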